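import Mathlib

/-!
# Triangle Artin groups
-/

namespace TA

/-- The alternating product `x y x y ...` with `n` factors. -/
def alt {M : Type*} [Monoid M] : M → M → ℕ → M
  | _, _, 0 => 1
  | x, y, (n + 1) => x * alt y x n

/-- The relators of the triangle Artin group `A_{m,n,p}` (generators `a = 0`, `b = 1`, `c = 2`). -/
def rels (m n p : ℕ) : Set (FreeGroup (Fin 3)) :=
  {alt (FreeGroup.of 0) (FreeGroup.of 1) m * (alt (FreeGroup.of 1) (FreeGroup.of 0) m)⁻¹,
   alt (FreeGroup.of 1) (FreeGroup.of 2) n * (alt (FreeGroup.of 2) (FreeGroup.of 1) n)⁻¹,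
   alt (FreeGroup.of 2) (FreeGroup.of 0) p * (alt (FreeGroup.of 0) (FreeGroup.of 2) p)⁻¹}

/-- The triangle Artin group `A_{m,n,p}`. -/
abbrev Artin (m n p : ℕ) : Type := PresentedGroup (rels m n p)

end TA
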