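import Pool.Agent.H14.TA.Defs

/-!
# Basic lemmas on sides of walls
-/

namespace TA

section Side
variable {I Γ : Type*} [Group Γ] {γ : I → Γ} {x : I} {B : Subgroup Γ} {s : Γ → Γ → ZMod 2}

theorem IsSide.one (h : IsSide γ x B s) (t : Γ) : s t 1 = 0 := by
  have := h.mul t 1 1
  simpa using this

theorem IsSide.inv (h : IsSide γ x B s) (t g : Γ) : s t g⁻¹ = s (g * t) g := by
  have := h.mul t g⁻¹ g
  rw [inv_mul_cancel, h.one, inv_inv] at this
  have h2 : s (g * t) g + s (g * t) g = 0 := CharTwo.add_self_eq_zero _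
  calc s t g⁻¹ = s t g⁻¹ + (s (g * t) g + s (g * t) g) := by rw [h2, add_zero]
    _ = s (g * t) g := by rw [← add_assoc, ← this, zero_add]

theorem IsSide.mul' (h : IsSide γ x B s) (t g k : Γ) :
    s (g⁻¹ * t) k = s t (g * k) + s t g := by
  rw [h.mul t g k, add_comm (s t g), add_assoc, CharTwo.add_self_eq_zero, add_zero]

theorem IsSide.pow_other (h : IsSide γ x B s) {y : I} (hy : y ≠ x) (n : ℕ) (t : Γ) :
    s t (γ y ^ n) = 0 := by
  induction n generalizing t with
  | zero => simpa using h.one t
  | succ n ih => rw [pow_succ', h.mul, h.other _ _ hy, ih, add_zero]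

theorem IsSide.zpow_other (h : IsSide γ x B s) {y : I} (hy : y ≠ x) (n : ℤ) (t : Γ) :
    s t (γ y ^ n) = 0 := by
  cases n with
  | ofNat n => simpa using h.pow_other hy n t
  | negSucc n => rw [zpow_negSucc, h.inv]; exact h.pow_other hy _ _

open Classical in
theorem IsSide.self (h : IsSide γ x B s) (t : Γ) : s t (γ x) = if t ∈ B then 1 else 0 := by
  split_ifs with ht
  · exact h.self_mem t ht
  · exact h.self_not_mem t ht

open Classical in
theorem IsSide.pow_self (h : IsSide γ x B s) (n : ℕ) (t : Γ) :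
    s t (γ x ^ n) = ∑ i ∈ Finset.range n, if t⁻¹ * γ x ^ i ∈ B then 1 else 0 := by
  induction n with
  | zero => simpa using h.one t
  | succ n ih =>
    rw [pow_succ, h.mul, ih, Finset.sum_range_succ, h.self]
    congr 1
    have : (γ x ^ n)⁻¹ * t ∈ B ↔ t⁻¹ * γ x ^ n ∈ B := by
      rw [← B.inv_mem_iff]; simp
    simp [this]

open Classical in
theorem IsSide.zpow_self (h : IsSide γ x B s) (n : ℤ) (t : Γ) :
    s t (γ x ^ n) = ∑ i ∈ step n, if t⁻¹ * γ x ^ i ∈ B then 1 else 0 := by
  cases n with
  | ofNat n =>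
    rw [Int.ofNat_eq_natCast, zpow_natCast, h.pow_self]
    have : step (n : ℤ) = (Finset.range n).map Nat.castEmbedding := by
      ext i
      simp only [step, Finset.mem_union, Finset.mem_Ico, Finset.mem_map, Finset.mem_range,
        Nat.castEmbedding_apply]
      constructor
      · rintro (⟨h1, h2⟩ | ⟨h1, h2⟩)
        · exact ⟨i.toNat, by omega, by omega⟩
        · omega
      · rintro ⟨a, ha, rfl⟩
        left; omega
    rw [this, Finset.sum_map]
    simp
  | negSucc n =>
    rw [zpow_negSucc, h.inv, h.pow_self]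
    have : step (Int.negSucc n) = (Finset.range (n + 1)).map
        ⟨fun a : ℕ => (a : ℤ) - (n + 1), fun a b hab => by simpa using hab⟩ := by
      ext i
      simp only [step, Finset.mem_union, Finset.mem_Ico, Finset.mem_map, Finset.mem_range,
        Function.Embedding.coeFn_mk]
      constructor
      · rintro (⟨h1, h2⟩ | ⟨h1, h2⟩)
        · omega
        · exact ⟨(i + (n + 1)).toNat, by omega, by omega⟩
      · rintro ⟨a, ha, rfl⟩
        right; omega
    rw [this, Finset.sum_map]
    apply Finset.sum_congr rfl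
    intro i _
    have : (γ x ^ (n + 1) * t)⁻¹ * γ x ^ i = t⁻¹ * γ x ^ ((i : ℤ) - (n + 1)) := by
      have h3 : ((i : ℤ) - (n + 1)) = -((n + 1 : ℕ) : ℤ) + (i : ℕ) := by push_cast; ring
      rw [h3, zpow_add, zpow_neg, zpow_natCast, zpow_natCast]
      group
    rw [this]
    rfl

open Classical in
/-- The effect of one syllable. -/
theorem IsSide.syl (h : IsSide γ x B s) (hB : ∀ n : ℤ, γ x ^ n ∈ B → n = 0) (t g : Γ)
    (u : I × ℤ) :
    s (g⁻¹ * t) (γ u.1 ^ u.2) = if Cr γ x B t g u then 1 else 0 := by
  by_cases hu : u.1 = x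
  · rw [hu, h.zpow_self]
    split_ifs with hc
    · obtain ⟨-, i, hi, hiB⟩ := hc
      rw [Finset.sum_eq_single_of_mem i hi]
      · rw [if_pos]
        simpa [mul_assoc] using hiB
      · intro j _ hji
        rw [if_neg]
        intro hjB
        apply hji
        have h1 : γ x ^ (i - j) ∈ B := by
          have h2 := B.mul_mem (B.inv_mem hjB) hiB
          have h3 : ((g⁻¹ * t)⁻¹ * γ x ^ j)⁻¹ * (t⁻¹ * g * γ x ^ i) = γ x ^ (i - j) := by
            rw [zpow_sub, ← zpow_neg]
            have : γ x ^ i * γ x ^ (-j) = γ x ^ (-j) * γ x ^ i := by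
              rw [← zpow_add, ← zpow_add, add_comm]
            rw [this, zpow_neg]
            group
          rwa [h3] at h2
        have := hB _ h1
        omega
    · apply Finset.sum_eq_zero
      intro i hi
      rw [if_neg]
      intro hiB
      exact hc ⟨hu, i, hi, by simpa [mul_assoc] using hiB⟩
  · rw [h.zpow_other hu, if_neg]
    intro hc
    exact hu hc.1

/-- If no syllable of `l` (read from `g`) crosses the wall, the side does not change. -/
theorem IsSide.eq_zero_of_no_cross (h : IsSide γ x B s) (hB : ∀ n : ℤ, γ x ^ n ∈ B → n = 0)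
    (t g : Γ) (l : List (I × ℤ))
    (hl : ∀ l1 u l2, l = l1 ++ u :: l2 → ¬ Cr γ x B t (g * ev γ l1) u) :
    s (g⁻¹ * t) (ev γ l) = 0 := by
  classical
  induction l generalizing g with
  | nil => simpa using h.one _
  | cons u l ih =>
    rw [ev_cons, h.mul, h.syl hB, if_neg (by simpa using hl [] u l rfl), zero_add]
    have := ih (g * γ u.1 ^ u.2) (by
      intro l1 v l2 hl2
      have := hl (u :: l1) v l2 (by simp [hl2])
      simpa [mul_assoc] using this)
    simpa [mul_assoc] using this

/-- If the side changes along `l`, some syllable crosses the wall. -/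
theorem IsSide.exists_cross (h : IsSide γ x B s) (hB : ∀ n : ℤ, γ x ^ n ∈ B → n = 0)
    (t g : Γ) (l : List (I × ℤ)) (hl : s (g⁻¹ * t) (ev γ l) ≠ 0) :
    ∃ l1 u l2, l = l1 ++ u :: l2 ∧ Cr γ x B t (g * ev γ l1) u := by
  by_contra hcon
  push Not at hcon
  exact hl (h.eq_zero_of_no_cross hB t g l fun l1 u l2 hh => hcon l1 u l2 hh)

/-- If exactly the syllable `u` of `l1 ++ u :: l2` crosses the wall, then the wall separates. -/
theorem IsSide.eq_one_of_unique (h : IsSide γ x B s) (hB : ∀ n : ℤ, γ x ^ n ∈ B → n = 0)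
    (t : Γ) (l : List (I × ℤ)) (l1 : List (I × ℤ)) (u : I × ℤ) (l2 : List (I × ℤ))
    (hl : l = l1 ++ u :: l2) (hu : Cr γ x B t (ev γ l1) u)
    (huniq : ∀ m1 v m2, l = m1 ++ v :: m2 → Cr γ x B t (ev γ m1) v → m1.length = l1.length) :
    s t (ev γ l) = 1 := by
  classical
  subst hl
  rw [ev_append, ev_cons, h.mul, h.mul]
  have e1 : s t (ev γ l1) = 0 := by
    have := h.eq_zero_of_no_cross hB t 1 l1 (by
      intro m1 v m2 hm hc
      have := huniq m1 v (m2 ++ u :: l2) (by simp [hm]) (by simpa using hc)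
      rw [hm] at this
      simp at this)
    simpa using this
  have e2 : s ((ev γ l1)⁻¹ * t) (γ u.1 ^ u.2) = 1 := by
    rw [h.syl hB, if_pos hu]
  have e3 : s ((γ u.1 ^ u.2)⁻¹ * ((ev γ l1)⁻¹ * t)) (ev γ l2) = 0 := by
    have := h.eq_zero_of_no_cross hB t (ev γ l1 * γ u.1 ^ u.2) l2 (by
      intro m1 v m2 hm hc
      have := huniq (l1 ++ u :: m1) v m2 (by simp [hm]) (by simpa [mul_assoc] using hc)
      simp at this)
    simpa [mul_assoc] using this
  rw [e1, e2, e3]
  simp

/-- Invariance of the side function under the stabiliser of the wall. -/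
theorem IsSide.coset (h : IsSide γ x B s) (hgen : Subgroup.closure (Set.range γ) = ⊤)
    (t g b : Γ) (hb : b ∈ B) : s (t * b) g = s t g := by
  have hg : g ∈ Subgroup.closure (Set.range γ) := by rw [hgen]; trivial
  induction hg using Subgroup.closure_induction generalizing t with
  | mem g hg =>
    obtain ⟨y, rfl⟩ := hg
    by_cases hy : y = x
    · subst hy
      by_cases ht : t ∈ B
      · rw [h.self_mem _ ht, h.self_mem _ (B.mul_mem ht hb)]
      · rw [h.self_not_mem _ ht, h.self_not_mem]
        intro h2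
        apply ht
        have := B.mul_mem h2 (B.inv_mem hb)
        simpa using this
    · rw [h.other _ _ hy, h.other _ _ hy]
  | one => rw [h.one, h.one]
  | mul g k _ _ hg hk =>
    rw [h.mul, h.mul, hg, ← mul_assoc, hk]
  | inv g _ hg =>
    rw [h.inv, h.inv, ← mul_assoc, hg]

/-- Two side functions of the same wall family coincide. -/
theorem IsSide.unique {s' : Γ → Γ → ZMod 2} (h : IsSide γ x B s) (h' : IsSide γ x B s')
    (hgen : Subgroup.closure (Set.range γ) = ⊤) (t g : Γ) : s t g = s' t g := by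
  classical
  have hg : g ∈ Subgroup.closure (Set.range γ) := by rw [hgen]; trivial
  induction hg using Subgroup.closure_induction generalizing t with
  | mem g hg =>
    obtain ⟨y, rfl⟩ := hg
    by_cases hy : y = x
    · subst hy
      rw [h.self, h'.self]
    · rw [h.other _ _ hy, h'.other _ _ hy]
  | one => rw [h.one, h'.one]
  | mul g k _ _ hg hk => rw [h.mul, h'.mul, hg, hk]
  | inv g _ hg => rw [h.inv, h'.inv, hg]

end Side

theorem mem_step_one {i : ℤ} : i ∈ step 1 ↔ i = 0 := by
  simp only [step, Finset.mem_union, Finset.mem_Ico]; omega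

theorem mem_step_neg_one {i : ℤ} : i ∈ step (-1) ↔ i = -1 := by
  simp only [step, Finset.mem_union, Finset.mem_Ico]; omega

theorem card_step (e : ℤ) : (step e).card = e.natAbs := by
  rcases le_total 0 e with h | h
  · have : step e = Finset.Ico 0 e := by
      rw [step, Finset.Ico_eq_empty_of_le h, Finset.union_empty]
    rw [this, Int.card_Ico]; omega
  · have : step e = Finset.Ico e 0 := by
      rw [step, Finset.Ico_eq_empty_of_le h, Finset.empty_union]
    rw [this, Int.card_Ico]; omega

/-! ### Normal forms in the free product `P` -/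

theorem len_ev_le (l : List (Fin 3 × ℤ)) : len (ev pg l) ≤ l.length := by
  obtain ⟨l', h1, h2, h3⟩ := exists_geo pg l
  rw [len, ← h1, nf_ev h2.red]
  exact h3

theorem len_le_of_ev {g : P} {l : List (Fin 3 × ℤ)} (h : ev pg l = g) : len g ≤ l.length :=
  h ▸ len_ev_le l

theorem nf_one : nf 1 = [] := by
  have := nf_ev (l := ([] : List (Fin 3 × ℤ))) red_nil
  simpa using this

theorem nf_eq_nil {g : P} : nf g = [] ↔ g = 1 := by
  constructor
  · intro h
    rw [← ev_nf g, h, ev_nil]
  · rintro rfl
    exact nf_one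

theorem nf_geo (g : P) : Geo pg (nf g) := by
  intro l' hl'
  rw [ev_nf] at hl'
  exact len_le_of_ev hl'

theorem geo_pg_iff {l : List (Fin 3 × ℤ)} : Geo pg l ↔ Red l := by
  constructor
  · exact Geo.red
  · intro h
    have := nf_geo (ev pg l)
    rwa [nf_ev h] at this

theorem nf_inv (g : P) : nf g⁻¹ = linv (nf g) := by
  have : g⁻¹ = ev pg (linv (nf g)) := by rw [ev_linv, ev_nf]
  rw [this, nf_ev (nf_red g).linv]

theorem nf_mul_of_junction {g h : P}
    (hj : ∀ s ∈ (nf g).getLast?, ∀ t ∈ (nf h).head?, s.1 ≠ t.1) :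
    nf (g * h) = nf g ++ nf h := by
  have : g * h = ev pg (nf g ++ nf h) := by rw [ev_append, ev_nf, ev_nf]
  rw [this, nf_ev (red_append.2 ⟨nf_red g, nf_red h, hj⟩)]

theorem nf_mul_of_len {g h : P} (hl : len (g * h) = len g + len h) :
    nf (g * h) = nf g ++ nf h := by
  have h1 : ev pg (nf g ++ nf h) = g * h := by rw [ev_append, ev_nf, ev_nf]
  have h2 : Geo pg (nf g ++ nf h) := by
    intro l' hl'
    have := len_le_of_ev (hl'.trans h1)
    rw [hl] at this
    simpa [len] using this
  rw [← h1, nf_ev h2.red]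

theorem len_mul_iff {g h : P} : len (g * h) = len g + len h ↔
    ∀ s ∈ (nf g).getLast?, ∀ t ∈ (nf h).head?, s.1 ≠ t.1 := by
  constructor
  · intro hl
    have h1 := nf_mul_of_len hl
    have h2 := nf_red (g * h)
    rw [h1] at h2
    exact (red_append.1 h2).2.2
  · intro hj
    rw [len, nf_mul_of_junction hj, List.length_append]
    rfl

/-- The retraction of `P` killing the letter `z`. -/
def pkill (z : Fin 3) : P →* P := phom fun x => if x = z then 1 else pg x

theorem pkill_ev (z : Fin 3) (l : List (Fin 3 × ℤ)) :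
    pkill z (ev pg l) = ev pg (l.filter fun s => s.1 ≠ z) := by
  rw [pkill, phom_ev]
  induction l with
  | nil => simp
  | cons s l ih =>
    rw [ev_cons, ih, List.filter_cons]
    by_cases hs : s.1 = z
    · simp [hs]
    · simp [hs]

theorem pkill_of_mem {z : Fin 3} {g : P} (hg : g ∈ Pz z) : pkill z g = g := by
  induction hg using Subgroup.closure_induction with
  | mem g hg =>
    obtain ⟨x, hx, rfl⟩ := hg
    simp [pkill, hx]
  | one => simp
  | mul g k _ _ hg hk => rw [map_mul, hg, hk]
  | inv g _ hg => rw [map_inv, hg]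

/-- Membership in `Pz z` in terms of normal forms. -/
theorem mem_Pz {z : Fin 3} {g : P} : g ∈ Pz z ↔ ∀ s ∈ nf g, s.1 ≠ z := by
  constructor
  · intro hg s hs hsz
    have h1 : ev pg ((nf g).filter fun s => s.1 ≠ z) = g := by
      rw [← pkill_ev, ev_nf, pkill_of_mem hg]
    have h2 := nf_geo g _ (h1.trans (ev_nf g).symm)
    have h3 : ((nf g).filter fun s => s.1 ≠ z).length < (nf g).length := by
      apply List.length_filter_lt_length_iff_exists.2
      exact ⟨s, hs, by simpa using hsz⟩
    omega
  · intro h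
    rw [← ev_nf g]
    have : ∀ l : List (Fin 3 × ℤ), (∀ s ∈ l, s.1 ≠ z) → ev pg l ∈ Pz z := by
      intro l
      induction l with
      | nil => intro _; exact (Pz z).one_mem
      | cons s l ih =>
        intro hl
        rw [ev_cons]
        apply (Pz z).mul_mem
        · apply (Pz z).zpow_mem
          exact Subgroup.subset_closure ⟨s.1, hl s (by simp), rfl⟩
        · exact ih fun t ht => hl t (by simp [ht])
    exact this _ h

theorem ev_mem_Pz {z : Fin 3} {l : List (Fin 3 × ℤ)} (h : ∀ s ∈ l, s.1 ≠ z) :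
    ev pg l ∈ Pz z := by
  induction l with
  | nil => exact (Pz z).one_mem
  | cons s l ih =>
    rw [ev_cons]
    apply (Pz z).mul_mem
    · apply (Pz z).zpow_mem
      exact Subgroup.subset_closure ⟨s.1, h s (by simp), rfl⟩
    · exact ih fun t ht => h t (by simp [ht])

end TA
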