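import Mathlib

/-!
# CAT(0) cube complexes: definitions

A cube complex is presented by its set `V` of vertices and the family `cubes` of the vertex sets of
its cubes. We only consider complexes in which every cube is determined by its vertex set and two
cubes meet in a common face or not at all (CAT(0) cube complexes have these properties). No
finiteness condition is imposed on the complex; every cube has finite dimension.
-/

namespace TA

variable {V : Type*}

/-- The face of the cube `{0,1}^n` given by prescribing some coordinates. -/
def stdFace {n : ℕ} (p : Fin n → Option Bool) : Set (Fin n → Bool) :=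
  {f | ∀ i b, p i = some b → f i = b}

/-- `cubes` is the set of (vertex sets of) cubes of a cube complex with vertex set `V`. -/
structure IsCubeComplex (cubes : Set (Set V)) : Prop where
  /-- every vertex is a cube (of dimension zero) -/
  vertex : ∀ v, {v} ∈ cubes
  /-- for every cube `C` there is a bijection with some `{0,1}^n` under which the cubes contained
  in `C` are exactly the faces of `{0,1}^n` -/
  faces : ∀ C ∈ cubes, ∃ (n : ℕ) (e : (Fin n → Bool) → V), Function.Injective e ∧
    Set.range e = C ∧ ∀ D : Set V, (D ∈ cubes ∧ D ⊆ C) ↔ ∃ p : Fin n → Option Bool,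
      D = e '' stdFace p
  /-- two cubes meet in a cube (hence in a common face) or not at all -/
  inter : ∀ C ∈ cubes, ∀ D ∈ cubes, (C ∩ D).Nonempty → C ∩ D ∈ cubes

/-- The 1-skeleton. -/
def skel (cubes : Set (Set V)) : SimpleGraph V where
  Adj u v := u ≠ v ∧ ({u, v} : Set V) ∈ cubes
  symm := ⟨fun u v h => ⟨h.1.symm, by rw [Set.pair_comm]; exact h.2⟩⟩
  loopless := ⟨fun _ h => h.1 rfl⟩

/-- The neighbours of `v` in the cube `C`: the vertices of the simplex of the link of `v` which
corresponds to `C`. -/
def linkSimplex (cubes : Set (Set V)) (v : V) (C : Set V) : Set V :=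
  {u | u ∈ C ∧ (skel cubes).Adj v u}

/-- All vertex links are flag: a finite set of vertices of the link of `v` which are pairwise
joined by edges of the link (that is, which pairwise span squares at `v`) spans a simplex of the
link (that is, a cube at `v`). -/
def FlagLinks (cubes : Set (Set V)) : Prop :=
  ∀ (v : V) (S : Set V), S.Finite → (∀ u ∈ S, (skel cubes).Adj v u) →
    (∀ u ∈ S, ∀ u' ∈ S, u ≠ u' → ∃ C ∈ cubes, v ∈ C ∧ linkSimplex cubes v C = {u, u'}) →
    ∃ C ∈ cubes, v ∈ C ∧ linkSimplex cubes v C = S

/-- Homotopy of edge paths (lists of vertices): generated by inserting a backtrack and by pushing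
a path of length two across a square. -/
inductive Homot (cubes : Set (Set V)) : List V → List V → Prop
  | refl (l : List V) : Homot cubes l l
  | symm {l l' : List V} : Homot cubes l l' → Homot cubes l' l
  | trans {l l' l'' : List V} : Homot cubes l l' → Homot cubes l' l'' → Homot cubes l l''
  | spur (l r : List V) (u v : V) : (skel cubes).Adj u v →
      Homot cubes (l ++ [u] ++ r) (l ++ [u, v, u] ++ r)
  | square (l r : List V) (u v w v' : V) : ({u, v, w, v'} : Set V) ∈ cubes →
      (skel cubes).Adj u v → (skel cubes).Adj v w → (skel cubes).Adj w v' →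
      (skel cubes).Adj v' u → u ≠ w → v ≠ v' →
      Homot cubes (l ++ [u, v, w] ++ r) (l ++ [u, v', w] ++ r)

/-- Simple connectedness (of the 2-skeleton, hence of the complex): the 1-skeleton is connected and
every closed edge path is null homotopic. -/
def SimplyConn (cubes : Set (Set V)) : Prop :=
  (skel cubes).Connected ∧
  ∀ (v : V) (l : List V), (v :: l).IsChain (skel cubes).Adj → (v :: l).getLast? = some v →
    Homot cubes (v :: l) [v]

/-- CAT(0) cube complexes. -/
structure IsCAT0 (cubes : Set (Set V)) : Prop where
  complex : IsCubeComplex cubes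
  flag : FlagLinks cubes
  simply : SimplyConn cubes

/-- `Γ` acts properly by cubical automorphisms on some CAT(0) cube complex. -/
def ActsProperly (Γ : Type) [Group Γ] : Prop :=
  ∃ (V : Type) (cubes : Set (Set V)) (_ : MulAction Γ V), IsCAT0 cubes ∧
    (∀ (g : Γ) (C : Set V), C ∈ cubes → (fun v => g • v) '' C ∈ cubes) ∧
    ∀ (v : V) (R : ℕ), {g : Γ | (skel cubes).dist v (g • v) ≤ R}.Finite

end TA
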