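import Pool.Agent.H14.TA.CubeDefs

namespace TA

/-- The cubes of the infinite cube on the set `Ω` of coordinates; vertices are the finite subsets
of `Ω`. -/
def icubes (Ω : Type*) [DecidableEq Ω] : Set (Set (Finset Ω)) :=
  {C | ∃ A F : Finset Ω, Disjoint A F ∧ C = {B | A ⊆ B ∧ B ⊆ A ∪ F}}

/-- Module `ICV`: vertices and intersections. -/
def S_ICV : Prop := ∀ (Ω : Type) [DecidableEq Ω], (∀ v, {v} ∈ icubes Ω) ∧
  ∀ C ∈ icubes Ω, ∀ D ∈ icubes Ω, (C ∩ D).Nonempty → C ∩ D ∈ icubes Ω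

/-- Module `ICF`: faces. -/
def S_ICF : Prop := ∀ (Ω : Type) [DecidableEq Ω], ∀ C ∈ icubes Ω,
  ∃ (n : ℕ) (e : (Fin n → Bool) → Finset Ω), Function.Injective e ∧
    Set.range e = C ∧ ∀ D : Set (Finset Ω), (D ∈ icubes Ω ∧ D ⊆ C) ↔
      ∃ p : Fin n → Option Bool, D = e '' stdFace p

/-- Module `ICA`: adjacency and squares of the infinite cube. -/
def S_ICA : Prop := ∀ (Ω : Type) [DecidableEq Ω],
  (∀ A B : Finset Ω, (skel (icubes Ω)).Adj A B ↔ ∃ x, B = symmDiff A {x}) ∧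
  ∀ (A : Finset Ω) (x y : Ω), x ≠ y →
    ({A, symmDiff A {x}, symmDiff (symmDiff A {x}) {y}, symmDiff A {y}} : Set (Finset Ω)) ∈
      icubes Ω

/-- Module `ICL`: links are flag. -/
def S_ICL : Prop := ∀ (Ω : Type) [DecidableEq Ω], FlagLinks (icubes Ω)

/-- Module `ICS`: simple connectedness. -/
def S_ICS : Prop := ∀ (Ω : Type) [DecidableEq Ω], SimplyConn (icubes Ω)

/-- Module `ICD`: the metric. -/
def S_ICD : Prop := ∀ (Ω : Type) [DecidableEq Ω] (A B : Finset Ω),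
  (skel (icubes Ω)).dist A B = (symmDiff A B).card

/-- Module `ACT`: a proper cocycle gives a proper action on a CAT(0) cube complex. -/
def S_ACT : Prop := ∀ (Γ : Type) [Group Γ] (Ω : Type) [DecidableEq Ω] [MulAction Γ Ω]
  (S : Γ → Finset Ω),
  (∀ g h, S (g * h) = symmDiff (S g) ((S h).image (fun w => g • w))) →
  (∀ R : ℕ, {g : Γ | (S g).card ≤ R}.Finite) → ActsProperly Γ

end TA
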