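import Pool.Agent.H14.TA.ArtinDef

/-!
# Triangle Artin groups acting properly on CAT(0) cube complexes: basic definitions
(helper14, MP_56c03d_al)
-/

namespace TA

/-- The group studied here: `A_{4κ,4κ,4κ}`. -/
abbrev G (κ : ℕ) : Type := Artin (4 * κ) (4 * κ) (4 * κ)

/-- The standard generators. -/
def gen (κ : ℕ) (x : Fin 3) : G κ := PresentedGroup.of x

theorem alt_two_mul {M : Type*} [Monoid M] (x y : M) (n : ℕ) :
    alt x y (2 * n) = (x * y) ^ n := by
  induction n with
  | zero => simp [alt]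
  | succ n ih =>
    have : 2 * (n + 1) = 2 * n + 1 + 1 := by ring
    rw [this, alt, alt, ih, pow_succ', mul_assoc]

theorem alt_four_mul {M : Type*} [Monoid M] (x y : M) (κ : ℕ) :
    alt x y (4 * κ) = (x * y) ^ (2 * κ) := by
  have h4 : 4 * κ = 2 * (2 * κ) := by ring
  rw [h4, alt_two_mul]

theorem map_alt {M N : Type*} [Monoid M] [Monoid N] (f : M →* N) (x y : M) (n : ℕ) :
    f (alt x y n) = alt (f x) (f y) n := by
  induction n generalizing x y with
  | zero => simp [alt]
  | succ n ih => simp [alt, ih]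

theorem gen_rel_aux (κ : ℕ) (u v : Fin 3)
    (huv : alt (FreeGroup.of u) (FreeGroup.of v) (4 * κ) *
        (alt (FreeGroup.of v) (FreeGroup.of u) (4 * κ))⁻¹ ∈ rels (4 * κ) (4 * κ) (4 * κ)) :
    (gen κ u * gen κ v) ^ (2 * κ) = (gen κ v * gen κ u) ^ (2 * κ) := by
  have h := PresentedGroup.one_of_mem huv
  rw [map_mul, map_inv, map_alt, map_alt, mul_inv_eq_one, alt_four_mul, alt_four_mul] at h
  exact h

/-- The defining relations: `(xy)^{2κ} = (yx)^{2κ}` for any two generators. -/
theorem gen_rel (κ : ℕ) (x y : Fin 3) :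
    (gen κ x * gen κ y) ^ (2 * κ) = (gen κ y * gen κ x) ^ (2 * κ) := by
  have h01 := gen_rel_aux κ 0 1 (by simp [rels])
  have h12 := gen_rel_aux κ 1 2 (by simp [rels])
  have h20 := gen_rel_aux κ 2 0 (by simp [rels])
  match x, y with
  | 0, 0 => rfl
  | 1, 1 => rfl
  | 2, 2 => rfl
  | 0, 1 => exact h01
  | 1, 0 => exact h01.symm
  | 1, 2 => exact h12
  | 2, 1 => exact h12.symm
  | 2, 0 => exact h20
  | 0, 2 => exact h20.symm

/-- Universal property of `G κ`. -/
def lift (κ : ℕ) {H : Type*} [Group H] (f : Fin 3 → H)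
    (hf : ∀ x y, x ≠ y → (f x * f y) ^ (2 * κ) = (f y * f x) ^ (2 * κ)) : G κ →* H :=
  PresentedGroup.toGroup (f := f) (by
    intro r hr
    simp only [rels, Set.mem_insert_iff, Set.mem_singleton_iff] at hr
    rcases hr with rfl | rfl | rfl <;>
      (rw [map_mul, map_inv, map_alt, map_alt, mul_inv_eq_one, alt_four_mul, alt_four_mul]
       simp only [FreeGroup.lift_apply_of]
       apply hf; decide))

@[simp] theorem lift_gen (κ : ℕ) {H : Type*} [Group H] (f : Fin 3 → H) (hf) (x : Fin 3) :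
    lift κ f hf (gen κ x) = f x := by
  simp [lift, gen]

/-- Two homomorphisms out of `G κ` agree if they agree on generators. -/
theorem G_hom_ext {κ : ℕ} {H : Type*} [Group H] {f g : G κ →* H}
    (h : ∀ x, f (gen κ x) = g (gen κ x)) : f = g :=
  PresentedGroup.ext h

theorem G_closure (κ : ℕ) : Subgroup.closure (Set.range (gen κ)) = ⊤ :=
  PresentedGroup.closure_range_of _

/-! ### The dihedral Artin group `D κ = ⟨a, b | (ab)^{2κ} = (ba)^{2κ}⟩` -/

/-- Relator of the dihedral Artin group. -/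
def dRels (κ : ℕ) : Set (FreeGroup Bool) :=
  {(FreeGroup.of false * FreeGroup.of true) ^ (2 * κ) *
    ((FreeGroup.of true * FreeGroup.of false) ^ (2 * κ))⁻¹}

/-- The dihedral Artin group with label `4κ`. -/
abbrev D (κ : ℕ) : Type := PresentedGroup (dRels κ)

/-- Generators of `D κ`: `false ↦ a`, `true ↦ b`. -/
def dgen (κ : ℕ) (x : Bool) : D κ := PresentedGroup.of x

theorem dgen_rel (κ : ℕ) (x y : Bool) :
    (dgen κ x * dgen κ y) ^ (2 * κ) = (dgen κ y * dgen κ x) ^ (2 * κ) := by
  have h := PresentedGroup.one_of_mem (rels := dRels κ) (x :=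
    (FreeGroup.of false * FreeGroup.of true) ^ (2 * κ) *
    ((FreeGroup.of true * FreeGroup.of false) ^ (2 * κ))⁻¹) (by simp [dRels])
  have h' : (dgen κ false * dgen κ true) ^ (2 * κ) = (dgen κ true * dgen κ false) ^ (2 * κ) := by
    rw [map_mul, map_inv, mul_inv_eq_one, map_pow, map_pow, map_mul, map_mul] at h
    exact h
  cases x <;> cases y <;> first | rfl | exact h' | exact h'.symm

/-- Universal property of `D κ`. -/
def dlift (κ : ℕ) {H : Type*} [Group H] (f : Bool → H)
    (hf : (f false * f true) ^ (2 * κ) = (f true * f false) ^ (2 * κ)) : D κ →* H :=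
  PresentedGroup.toGroup (f := f) (by
    intro r hr
    simp only [dRels, Set.mem_singleton_iff] at hr
    subst hr
    rw [map_mul, map_inv, mul_inv_eq_one, map_pow, map_pow, map_mul, map_mul]
    simpa only [FreeGroup.lift_apply_of] using hf)

@[simp] theorem dlift_dgen (κ : ℕ) {H : Type*} [Group H] (f : Bool → H) (hf) (x : Bool) :
    dlift κ f hf (dgen κ x) = f x := by
  simp [dlift, dgen]

theorem D_hom_ext {κ : ℕ} {H : Type*} [Group H] {f g : D κ →* H}
    (h : ∀ x, f (dgen κ x) = g (dgen κ x)) : f = g :=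
  PresentedGroup.ext h

theorem D_closure (κ : ℕ) : Subgroup.closure (Set.range (dgen κ)) = ⊤ :=
  PresentedGroup.closure_range_of _

/-! ### Syllable lists -/

section Lists
variable {I Γ Δ : Type*} [Group Γ] [Group Δ]

/-- Evaluation of a list of syllables `(x, e) ↦ x ^ e`. -/
def ev (γ : I → Γ) (l : List (I × ℤ)) : Γ := (l.map fun s => γ s.1 ^ s.2).prod

@[simp] theorem ev_nil (γ : I → Γ) : ev γ [] = 1 := rfl

@[simp] theorem ev_cons (γ : I → Γ) (s : I × ℤ) (l : List (I × ℤ)) :
    ev γ (s :: l) = γ s.1 ^ s.2 * ev γ l := by simp [ev]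

@[simp] theorem ev_append (γ : I → Γ) (l l' : List (I × ℤ)) :
    ev γ (l ++ l') = ev γ l * ev γ l' := by simp [ev]

theorem ev_map (f : Γ →* Δ) (γ : I → Γ) (l : List (I × ℤ)) :
    f (ev γ l) = ev (fun i => f (γ i)) l := by
  induction l with
  | nil => simp
  | cons s l ih => simp [ih]

/-- A syllable list is reduced if neighbouring letters are distinct and exponents are nonzero. -/
def Red (l : List (I × ℤ)) : Prop :=
  l.IsChain (fun s t => s.1 ≠ t.1) ∧ ∀ s ∈ l, s.2 ≠ 0

/-- The formal inverse of a syllable list. -/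
def linv (l : List (I × ℤ)) : List (I × ℤ) := (l.map fun s => (s.1, -s.2)).reverse

@[simp] theorem length_linv (l : List (I × ℤ)) : (linv l).length = l.length := by simp [linv]

@[simp] theorem linv_nil : linv ([] : List (I × ℤ)) = [] := rfl

@[simp] theorem linv_append (l l' : List (I × ℤ)) : linv (l ++ l') = linv l' ++ linv l := by
  simp [linv]

@[simp] theorem linv_linv (l : List (I × ℤ)) : linv (linv l) = l := by
  simp [linv, Function.comp_def]

@[simp] theorem ev_linv (γ : I → Γ) (l : List (I × ℤ)) : ev γ (linv l) = (ev γ l)⁻¹ := by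
  induction l with
  | nil => simp
  | cons s l ih =>
    have : s :: l = [s] ++ l := rfl
    rw [this, linv_append, ev_append, ih, ev_append, mul_inv_rev]
    simp [linv]

theorem mem_linv {s : I × ℤ} {l : List (I × ℤ)} : s ∈ linv l ↔ (s.1, -s.2) ∈ l := by
  simp only [linv, List.mem_reverse, List.mem_map]
  constructor
  · rintro ⟨t, ht, rfl⟩
    simpa using ht
  · intro h
    exact ⟨_, h, by simp⟩

theorem Red.linv {l : List (I × ℤ)} (h : Red l) : Red (linv l) := by
  refine ⟨?_, ?_⟩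
  · rw [TA.linv, List.isChain_reverse, List.isChain_map]
    exact h.1.imp fun _ _ hab => hab.symm
  · intro s hs
    rw [mem_linv] at hs
    have := h.2 _ hs
    simpa using this

theorem Red.sub {l l' : List (I × ℤ)} (h : Red l) (hl : l' <:+: l) : Red l' := by
  refine ⟨?_, fun s hs => h.2 s (hl.subset hs)⟩
  obtain ⟨p, q, rfl⟩ := hl
  exact (List.isChain_append.1 (List.isChain_append.1 h.1).1).2.1

theorem Red.left {l l' : List (I × ℤ)} (h : Red (l ++ l')) : Red l :=
  h.sub (List.prefix_append l l').isInfix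

theorem Red.right {l l' : List (I × ℤ)} (h : Red (l ++ l')) : Red l' :=
  h.sub (List.suffix_append l l').isInfix

theorem red_append {l l' : List (I × ℤ)} :
    Red (l ++ l') ↔ Red l ∧ Red l' ∧ ∀ s ∈ l.getLast?, ∀ t ∈ l'.head?, s.1 ≠ t.1 := by
  constructor
  · intro h
    exact ⟨h.left, h.right, (List.isChain_append.1 h.1).2.2⟩
  · rintro ⟨h, h', h''⟩
    refine ⟨List.isChain_append.2 ⟨h.1, h'.1, h''⟩, ?_⟩
    intro s hs
    rcases List.mem_append.1 hs with hs | hs
    · exact h.2 s hs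
    · exact h'.2 s hs

@[simp] theorem red_nil : Red ([] : List (I × ℤ)) := ⟨List.isChain_nil, by simp⟩

theorem red_singleton {s : I × ℤ} : Red [s] ↔ s.2 ≠ 0 := by
  constructor
  · intro h
    exact h.2 s (by simp)
  · intro h
    exact ⟨List.isChain_singleton _, by simpa using h⟩

/-- A list is geodesic if it has the least number of syllables among all lists with the same
value. -/
def Geo (γ : I → Γ) (l : List (I × ℤ)) : Prop :=
  ∀ l' : List (I × ℤ), ev γ l' = ev γ l → l.length ≤ l'.length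

theorem Geo.linv {γ : I → Γ} {l : List (I × ℤ)} (h : Geo γ l) : Geo γ (linv l) := by
  intro l' hl'
  have := h (TA.linv l') (by rw [ev_linv, hl', ev_linv, inv_inv])
  simpa using this

theorem Geo.sub {γ : I → Γ} {l l' : List (I × ℤ)} (h : Geo γ l) (hl : l' <:+: l) :
    Geo γ l' := by
  obtain ⟨p, q, rfl⟩ := hl
  intro m hm
  have := h (p ++ m ++ q) (by simp [hm])
  simp at this
  omega

theorem exists_geo (γ : I → Γ) (l : List (I × ℤ)) :
    ∃ l', ev γ l' = ev γ l ∧ Geo γ l' ∧ l'.length ≤ l.length := by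
  classical
  have hex : ∃ n, ∃ l' : List (I × ℤ), ev γ l' = ev γ l ∧ l'.length = n :=
    ⟨l.length, l, rfl, rfl⟩
  obtain ⟨l', h1, h2⟩ := Nat.find_spec hex
  refine ⟨l', h1, ?_, ?_⟩
  · intro m hm
    rw [h2]
    exact Nat.find_min' hex ⟨m, hm.trans h1, rfl⟩
  · rw [h2]
    exact Nat.find_min' hex ⟨l, rfl, rfl⟩

theorem Geo.red {γ : I → Γ} {l : List (I × ℤ)} (h : Geo γ l) : Red l := by
  refine ⟨?_, ?_⟩
  · rw [List.isChain_iff_forall_rel_of_append_cons_cons]
    rintro s t p q rfl hst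
    have := h (p ++ (s.1, s.2 + t.2) :: q) (by
      simp [← hst, zpow_add, mul_assoc])
    simp at this
  · intro s hs hs0
    obtain ⟨p, q, rfl⟩ := List.append_of_mem hs
    have := h (p ++ q) (by simp [hs0])
    simp at this

end Lists

/-! ### The free product `P = ℤ * ℤ * ℤ` and normal forms -/

/-- The free product of three infinite cyclic groups. -/
abbrev P : Type := Monoid.CoprodI (fun _ : Fin 3 => Multiplicative ℤ)

/-- The generators of `P`. -/
def pg (x : Fin 3) : P :=
  Monoid.CoprodI.of (M := fun _ : Fin 3 => Multiplicative ℤ) (i := x) (Multiplicative.ofAdd 1)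

theorem pg_zpow (x : Fin 3) (n : ℤ) :
    pg x ^ n = Monoid.CoprodI.of (M := fun _ : Fin 3 => Multiplicative ℤ) (i := x)
      (Multiplicative.ofAdd n) := by
  rw [pg, ← map_zpow, ← ofAdd_zsmul]
  simp

/-- The normal form of an element of `P`. -/
noncomputable def nf (g : P) : List (Fin 3 × ℤ) :=
  (Monoid.CoprodI.Word.equiv g).toList.map fun s => (s.1, Multiplicative.toAdd s.2)

theorem nf_red (g : P) : Red (nf g) := by
  refine ⟨?_, ?_⟩
  · rw [nf, List.isChain_map]
    exact (Monoid.CoprodI.Word.equiv g).chain_ne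
  · intro s hs
    rw [nf, List.mem_map] at hs
    obtain ⟨t, ht, rfl⟩ := hs
    have := (Monoid.CoprodI.Word.equiv g).ne_one t ht
    simpa using this

theorem ev_nf (g : P) : ev pg (nf g) = g := by
  have h : (Monoid.CoprodI.Word.equiv g).prod = g :=
    Monoid.CoprodI.Word.equiv.symm_apply_apply g
  conv_rhs => rw [← h]
  rw [Monoid.CoprodI.Word.prod, ev, nf, List.map_map]
  congr 1
  apply List.map_congr_left
  intro s _
  simp [pg_zpow]

theorem nf_ev {l : List (Fin 3 × ℤ)} (hl : Red l) : nf (ev pg l) = l := by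
  let w : Monoid.CoprodI.Word (fun _ : Fin 3 => Multiplicative ℤ) :=
    { toList := l.map fun s => ⟨s.1, Multiplicative.ofAdd s.2⟩
      ne_one := by
        intro s hs
        rw [List.mem_map] at hs
        obtain ⟨t, ht, rfl⟩ := hs
        simpa using hl.2 t ht
      chain_ne := by
        rw [List.isChain_map]
        exact hl.1 }
  have hw : w.prod = ev pg l := by
    rw [Monoid.CoprodI.Word.prod, ev, List.map_map]
    congr 1
    apply List.map_congr_left
    intro s _
    simp [pg_zpow]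
  have h2 : Monoid.CoprodI.Word.equiv (ev pg l) = w := by
    rw [← hw]
    exact Monoid.CoprodI.Word.equiv.apply_symm_apply w
  rw [nf, h2, List.map_map]
  conv_rhs => rw [← List.map_id l]
  apply List.map_congr_left
  intro s _
  simp

/-- The homomorphism from the free product given by the images of the generators. -/
def phom {Γ : Type*} [Group Γ] (γ : Fin 3 → Γ) : P →* Γ :=
  Monoid.CoprodI.lift fun x => zpowersHom Γ (γ x)

@[simp] theorem phom_pg {Γ : Type*} [Group Γ] (γ : Fin 3 → Γ) (x : Fin 3) :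
    phom γ (pg x) = γ x := by
  simp [phom, pg]

theorem phom_ev {Γ : Type*} [Group Γ] (γ : Fin 3 → Γ) (l : List (Fin 3 × ℤ)) :
    phom γ (ev pg l) = ev γ l := by
  rw [ev_map]
  simp

theorem phom_eq {Γ : Type*} [Group Γ] (γ : Fin 3 → Γ) (g : P) :
    phom γ g = ev γ (nf g) := by
  rw [← phom_ev, ev_nf]

/-- Syllable length in `P`. -/
noncomputable def len (g : P) : ℕ := (nf g).length

/-- The subgroup of `P` of elements avoiding the letter `z`. -/
def Pz (z : Fin 3) : Subgroup P := Subgroup.closure {g | ∃ x, x ≠ z ∧ g = pg x}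

/-! ### The wreath-like quotient of `D κ` -/

/-- The group `(ZMod n → ℤ) ⋊ ZMod n`, written out. -/
@[ext] structure Lamp (n : ℕ) where
  /-- the function part -/
  f : ZMod n → ℤ
  /-- the rotation part -/
  c : ZMod n

namespace Lamp
variable {n : ℕ}

instance : Mul (Lamp n) := ⟨fun g h => ⟨fun i => g.f i + h.f (i - g.c), g.c + h.c⟩⟩
instance : One (Lamp n) := ⟨⟨fun _ => 0, 0⟩⟩
instance : Inv (Lamp n) := ⟨fun g => ⟨fun i => - g.f (i + g.c), - g.c⟩⟩

@[simp] theorem mul_f (g h : Lamp n) (i : ZMod n) : (g * h).f i = g.f i + h.f (i - g.c) := rfl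
@[simp] theorem mul_c (g h : Lamp n) : (g * h).c = g.c + h.c := rfl
@[simp] theorem one_f (i : ZMod n) : (1 : Lamp n).f i = 0 := rfl
@[simp] theorem one_c : (1 : Lamp n).c = 0 := rfl
@[simp] theorem inv_f (g : Lamp n) (i : ZMod n) : (g⁻¹).f i = - g.f (i + g.c) := rfl
@[simp] theorem inv_c (g : Lamp n) : (g⁻¹).c = - g.c := rfl

instance : Group (Lamp n) :=
  Group.ofLeftAxioms
    (by
      intro a b c
      ext i
      · simp [add_assoc, sub_add_eq_sub_sub]
      · simp [add_assoc])
    (by intro a; ext i <;> simp)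
    (by intro a; ext i <;> simp)

end Lamp

theorem swap_pow {Γ : Type*} [Group Γ] (x y : Γ) (n : ℕ) :
    (y * x) ^ n = x⁻¹ * (x * y) ^ n * x := by
  have : y * x = x⁻¹ * (x * y) * x⁻¹⁻¹ := by group
  rw [this, conj_pow, inv_inv]

theorem rel_of_commute {Γ : Type*} [Group Γ] {x y : Γ} {n : ℕ}
    (h : Commute x ((x * y) ^ n)) : (x * y) ^ n = (y * x) ^ n := by
  rw [swap_pow x y n, mul_assoc, ← h.eq, inv_mul_cancel_left]

/-- The images of the generators of `D κ` in `Lamp (2κ)`. -/
def lamGen (κ : ℕ) (x : Bool) : Lamp (2 * κ) :=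
  if x then ⟨fun _ => 0, 1⟩ else ⟨fun i => if i = 0 then 1 else 0, 0⟩

theorem Lamp.pow_c {n : ℕ} (g : Lamp n) (k : ℕ) : (g ^ k).c = k * g.c := by
  induction k with
  | zero => simp
  | succ k ih => rw [pow_succ, Lamp.mul_c, ih]; push_cast; ring

theorem Lamp.commute_of_c {n : ℕ} {g h : Lamp n} (hg : g.c = 0) (hh : h.c = 0) :
    Commute g h := by
  rw [commute_iff_eq]
  ext i
  · simp [hg, hh, add_comm]
  · simp [hg, hh]

/-- The homomorphism `D κ → Lamp (2κ)`, `a ↦ (δ₀, 0)`, `b ↦ (0, 1)`. -/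
def lam (κ : ℕ) : D κ →* Lamp (2 * κ) :=
  dlift κ (lamGen κ) (by
    apply rel_of_commute
    apply Lamp.commute_of_c
    · simp [lamGen]
    · rw [Lamp.pow_c]
      simp only [lamGen, Lamp.mul_c]
      have h := ZMod.natCast_self (2 * κ)
      push_cast at h ⊢
      simp [h])

/-- The class of an element of `D κ` (exponent sum of `b` mod `2κ`). -/
def cls (κ : ℕ) (g : D κ) : ZMod (2 * κ) := (lam κ g).c

/-- `nn κ g i`: exponent sum of the letters `a` read in class `i`. -/
def nn (κ : ℕ) (g : D κ) (i : ZMod (2 * κ)) : ℤ := (lam κ g).f i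

section clsnn
variable {κ : ℕ}

@[simp] theorem cls_one : cls κ 1 = 0 := by simp [cls]
@[simp] theorem cls_mul (g h : D κ) : cls κ (g * h) = cls κ g + cls κ h := by simp [cls]
@[simp] theorem cls_inv (g : D κ) : cls κ g⁻¹ = - cls κ g := by simp [cls]
@[simp] theorem cls_a : cls κ (dgen κ false) = 0 := by simp [cls, lam, lamGen]
@[simp] theorem cls_b : cls κ (dgen κ true) = 1 := by simp [cls, lam, lamGen]
@[simp] theorem nn_one (i) : nn κ 1 i = 0 := by simp [nn]
@[simp] theorem nn_mul (g h : D κ) (i) : nn κ (g * h) i = nn κ g i + nn κ h (i - cls κ g) := by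
  simp [nn, cls]
@[simp] theorem nn_inv (g : D κ) (i) : nn κ g⁻¹ i = - nn κ g (i + cls κ g) := by simp [nn, cls]
@[simp] theorem nn_a (i) : nn κ (dgen κ false) i = if i = 0 then 1 else 0 := by
  simp [nn, lam, lamGen]
@[simp] theorem nn_b (i) : nn κ (dgen κ true) i = 0 := by simp [nn, lam, lamGen]

theorem cls_pow (g : D κ) (n : ℕ) : cls κ (g ^ n) = n * cls κ g := by
  simp [cls, Lamp.pow_c]

theorem cls_zpow (g : D κ) (n : ℤ) : cls κ (g ^ n) = n * cls κ g := by
  cases n with
  | ofNat n => simp [cls_pow]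
  | negSucc n => simp only [zpow_negSucc, cls_inv, cls_pow, Int.cast_negSucc]; ring

end clsnn

/-- Exponent sum homomorphisms on `D κ`. -/
def dsum (κ : ℕ) (f : Bool → ℤ) : D κ →* Multiplicative ℤ :=
  dlift κ (fun x => Multiplicative.ofAdd (f x)) (by rw [mul_comm])

/-- Exponent sum homomorphisms on `G κ`. -/
def gsum (κ : ℕ) (f : Fin 3 → ℤ) : G κ →* Multiplicative ℤ :=
  lift κ (fun x => Multiplicative.ofAdd (f x)) (by intro x y _; rw [mul_comm])

/-- The automorphism of `D κ` exchanging `a` and `b`. -/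
def dswap (κ : ℕ) : D κ →* D κ := dlift κ (fun x => dgen κ (!x)) (dgen_rel κ _ _)

/-- `δ = (ab)^κ`. -/
def del (κ : ℕ) : D κ := (dgen κ false * dgen κ true) ^ κ

/-- `δ' = (ba)^κ`. -/
def del' (κ : ℕ) : D κ := (dgen κ true * dgen κ false) ^ κ

/-- The stabiliser subgroup `K` of `D κ`. -/
def KK (κ : ℕ) : Subgroup (D κ) where
  carrier := {g | cls κ g = 0 ∧ nn κ g 0 = 0}
  one_mem' := by simp
  mul_mem' := by
    rintro g h ⟨h1, h2⟩ ⟨h3, h4⟩
    simp [h1, h2, h3, h4]
  inv_mem' := by
    rintro g ⟨h1, h2⟩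
    simp [h1, h2]

theorem mem_KK {κ : ℕ} {g : D κ} : g ∈ KK κ ↔ cls κ g = 0 ∧ nn κ g 0 = 0 := Iff.rfl

/-- The local wall families in a dihedral group. -/
inductive LFam
  | Va | Vb | Ha
  deriving DecidableEq

/-- The letter crossed by a local wall. -/
def LFam.letter : LFam → Bool
  | .Va => false
  | .Vb => true
  | .Ha => false

/-- The stabiliser of the base wall of a local family. -/
def LFam.B (κ : ℕ) : LFam → Subgroup (D κ)
  | .Va => Subgroup.zpowers (del κ)
  | .Vb => Subgroup.zpowers (del' κ)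
  | .Ha => KK κ

/-- The homomorphism `D κ → G κ`, `a ↦ x`, `b ↦ y`. -/
def iota (κ : ℕ) (x y : Fin 3) : D κ →* G κ :=
  dlift κ (fun i => gen κ (if i then y else x)) (by simpa using gen_rel κ x y)

/-- The retraction `G κ → D κ`, `x ↦ a`, `y ↦ b`, third letter `↦ 1`. -/
def ret (κ : ℕ) (x y : Fin 3) : G κ →* D κ :=
  lift κ (fun z => if z = x then dgen κ false else if z = y then dgen κ true else 1) (by
    intro u v _
    have h := dgen_rel κ false true
    split_ifs <;> simp_all)

@[simp] theorem iota_false (κ : ℕ) (x y : Fin 3) : iota κ x y (dgen κ false) = gen κ x := by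
  simp [iota]

@[simp] theorem iota_true (κ : ℕ) (x y : Fin 3) : iota κ x y (dgen κ true) = gen κ y := by
  simp [iota]

@[simp] theorem ret_gen (κ : ℕ) (x y z : Fin 3) : ret κ x y (gen κ z) =
    if z = x then dgen κ false else if z = y then dgen κ true else 1 := by
  simp [ret]

@[simp] theorem ret_iota (κ : ℕ) {x y : Fin 3} (h : x ≠ y) (g : D κ) :
    ret κ x y (iota κ x y g) = g := by
  have : (ret κ x y).comp (iota κ x y) = MonoidHom.id _ := by
    apply D_hom_ext
    intro i
    cases i <;> simp [h.symm]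
  exact DFunLike.congr_fun this g

theorem iota_injective (κ : ℕ) {x y : Fin 3} (h : x ≠ y) : Function.Injective (iota κ x y) :=
  Function.LeftInverse.injective (ret_iota κ h)

/-- The two letters different from `x`: `x+1` and `x+2`. -/
def yy (x : Fin 3) (i : Bool) : Fin 3 := if i then x + 2 else x + 1

theorem yy_ne (x : Fin 3) (i : Bool) : yy x i ≠ x := by
  cases i <;> fin_cases x <;> decide

theorem yy_ne' (x : Fin 3) (i : Bool) : yy x i ≠ yy x (!i) := by
  cases i <;> fin_cases x <;> decide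

theorem letter_cases (x z : Fin 3) : z = x ∨ z = yy x false ∨ z = yy x true := by
  fin_cases x <;> fin_cases z <;> decide

/-- The subgroup generated by two dihedral subgroups glued along `⟨x⟩`. -/
def QQ (κ : ℕ) (x : Fin 3) (B : Bool → Subgroup (D κ)) : Subgroup (G κ) :=
  ⨆ i, (B i).map (iota κ x (yy x i))

/-- The global wall families: `(x, false)` is `V_x`, `(x, true)` is `H_x`. -/
abbrev Fam : Type := Fin 3 × Bool

/-- The two dihedral subgroups of a family. -/
def BF (κ : ℕ) (F : Fam) (i : Bool) : Subgroup (D κ) :=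
  if F.2 = true ∧ i = false then KK κ else Subgroup.zpowers (del κ)

/-- The stabiliser of the base wall of a family. -/
def QF (κ : ℕ) (F : Fam) : Subgroup (G κ) := QQ κ F.1 (BF κ F)

/-! ### Sides of walls -/

/-- The steps of a syllable with exponent `e`. -/
noncomputable def step (e : ℤ) : Finset ℤ := Finset.Ico 0 e ∪ Finset.Ico e 0

/-- `s t g` says whether `g` and `1` are on different sides of the wall `tB`; this wall is crossed
by the steps `h → h x` with `h ∈ t B`. -/
structure IsSide {I Γ : Type*} [Group Γ] (γ : I → Γ) (x : I) (B : Subgroup Γ)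
    (s : Γ → Γ → ZMod 2) : Prop where
  mul : ∀ t g h, s t (g * h) = s t g + s (g⁻¹ * t) h
  self_mem : ∀ t, t ∈ B → s t (γ x) = 1
  self_not_mem : ∀ t, t ∉ B → s t (γ x) = 0
  other : ∀ t y, y ≠ x → s t (γ y) = 0

/-- The syllable `s` read from `g` crosses the wall `tB` of letter `x`. -/
def Cr {I Γ : Type*} [Group Γ] (γ : I → Γ) (x : I) (B : Subgroup Γ) (t g : Γ) (s : I × ℤ) :
    Prop :=
  s.1 = x ∧ ∃ i ∈ step s.2, t⁻¹ * g * γ x ^ i ∈ B

/-- The group `(Γ → ZMod 2) ⋊ Γ`, written out. -/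
@[ext] structure Aff (Γ : Type*) where
  /-- the function part -/
  f : Γ → ZMod 2
  /-- the group part -/
  g : Γ

namespace Aff
variable {Γ : Type*} [Group Γ]

instance : Mul (Aff Γ) := ⟨fun x y => ⟨fun t => x.f t + y.f (x.g⁻¹ * t), x.g * y.g⟩⟩
instance : One (Aff Γ) := ⟨⟨fun _ => 0, 1⟩⟩
instance : Inv (Aff Γ) := ⟨fun x => ⟨fun t => - x.f (x.g * t), x.g⁻¹⟩⟩

@[simp] theorem mul_f (x y : Aff Γ) (t : Γ) : (x * y).f t = x.f t + y.f (x.g⁻¹ * t) := rfl
@[simp] theorem mul_g (x y : Aff Γ) : (x * y).g = x.g * y.g := rfl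
@[simp] theorem one_f (t : Γ) : (1 : Aff Γ).f t = 0 := rfl
@[simp] theorem one_g : (1 : Aff Γ).g = 1 := rfl
@[simp] theorem inv_f (x : Aff Γ) (t : Γ) : (x⁻¹).f t = - x.f (x.g * t) := rfl
@[simp] theorem inv_g (x : Aff Γ) : (x⁻¹).g = x.g⁻¹ := rfl

instance : Group (Aff Γ) :=
  Group.ofLeftAxioms
    (by
      intro a b c
      ext i
      · simp [add_assoc, mul_assoc]
      · simp [mul_assoc])
    (by intro a; ext i <;> simp)
    (by
      intro a
      ext i
      · simp only [mul_f, inv_f, inv_g, inv_inv, one_f, neg_add_cancel]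
      · simp)

/-- The projection to the group. -/
def toG : Aff Γ →* Γ where
  toFun x := x.g
  map_one' := rfl
  map_mul' _ _ := rfl

@[simp] theorem toG_apply (x : Aff Γ) : toG x = x.g := rfl

end Aff

/-! ### Abstract syllable geometry and windmills -/

section Windmill
variable {P' : Type} [Group P']

/-- `m` lies on a geodesic from `x` to `y`. -/
def Btw (len : P' → ℕ) (x m y : P') : Prop := len (x⁻¹ * m) + len (m⁻¹ * y) = len (x⁻¹ * y)

/-- Membership in the residue `Y = (z, g)`, that is, in the coset `g (Pz z)`. -/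
def InR (Pz : Fin 3 → Subgroup P') (Y : Fin 3 × P') (x : P') : Prop := Y.2⁻¹ * x ∈ Pz Y.1

/-- Two pairs denote the same residue. -/
def SameR (Pz : Fin 3 → Subgroup P') (Y Y' : Fin 3 × P') : Prop :=
  Y.1 = Y'.1 ∧ Y.2⁻¹ * Y'.2 ∈ Pz Y.1

/-- The rotation subgroup of a residue. -/
def MemRY (R : Fin 3 → Subgroup P') (Y : Fin 3 × P') (r : P') : Prop := Y.2⁻¹ * r * Y.2 ∈ R Y.1

/-- `q` is the gate (projection) of `x` on the residue `Y`. -/
def IsGate (len : P' → ℕ) (Pz : Fin 3 → Subgroup P') (Y : Fin 3 × P') (x q : P') : Prop :=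
  InR Pz Y q ∧ ∀ y, InR Pz Y y → Btw len x q y

/-- The axioms of the syllable geometry of a free product. -/
structure SylGeom (len : P' → ℕ) (Pz : Fin 3 → Subgroup P') : Prop where
  eq_one : ∀ g, len g = 0 ↔ g = 1
  inv : ∀ g, len g⁻¹ = len g
  mul : ∀ g h, len (g * h) ≤ len g + len h
  /-- intervals split: `[x,y] ⊆ [x,p] ∪ [p,y]` -/
  split : ∀ x m y p, Btw len x m y → Btw len x m p ∨ Btw len p m y
  /-- residues are convex -/
  convex : ∀ Y x m y, InR Pz Y x → InR Pz Y y → Btw len x m y → InR Pz Y m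
  /-- gates exist -/
  gate : ∀ Y x, ∃ q, IsGate len Pz Y x q
  /-- the geodesic between points with different gates passes through both gates -/
  gate_path : ∀ Y x x' q q', IsGate len Pz Y x q → IsGate len Pz Y x' q' → q ≠ q' →
    len (x⁻¹ * x') = len (x⁻¹ * q) + len (q⁻¹ * q') + len (q'⁻¹ * x')
  /-- distinct residues meet in diameter at most one -/
  inter : ∀ Y Y', ¬ SameR Pz Y Y' → ∀ x y, InR Pz Y x → InR Pz Y y → InR Pz Y' x → InR Pz Y' y →
    len (x⁻¹ * y) ≤ 1
  /-- the three subgroups generate -/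
  gen : ∀ g, g ∈ Subgroup.closure (⋃ z, (Pz z : Set P'))

/-- The hypotheses on the rotation subgroups. -/
structure Rot (len : P' → ℕ) (Pz R : Fin 3 → Subgroup P') (ρ : ℕ) : Prop where
  le : ∀ z, R z ≤ Pz z
  conj : ∀ z p r, p ∈ Pz z → r ∈ R z → p * r * p⁻¹ ∈ R z
  big : ∀ z r, r ∈ R z → r ≠ 1 → ρ ≤ len r
  eight : 8 ≤ ρ

/-- Convexity of a set. -/
def Conv (len : P' → ℕ) (W : Set P') : Prop := ∀ x ∈ W, ∀ y ∈ W, ∀ m, Btw len x m y → m ∈ W

/-- A residue meets a set. -/
def Meets (Pz : Fin 3 → Subgroup P') (W : Set P') (Y : Fin 3 × P') : Prop := ∃ x ∈ W, InR Pz Y x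

/-- The residue `Y` is attached to `W`: it meets `W` in diameter at most two. -/
def Att (len : P' → ℕ) (Pz : Fin 3 → Subgroup P') (W : Set P') (Y : Fin 3 × P') : Prop :=
  Meets Pz W Y ∧ ∀ x ∈ W, ∀ y ∈ W, InR Pz Y x → InR Pz Y y → len (x⁻¹ * y) ≤ 2

/-- A windmill. -/
structure Mill (len : P' → ℕ) (Pz R : Fin 3 → Subgroup P') (W : Set P') (N : Subgroup P') :
    Prop where
  one : (1 : P') ∈ W
  conv : Conv len W
  inv : ∀ n ∈ N, ∀ x ∈ W, n * x ∈ W
  dich : ∀ Y, Meets Pz W Y →
    ((∀ x, InR Pz Y x → x ∈ W) ∧ ∀ r, MemRY R Y r → r ∈ N) ∨ Att len Pz W Y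

/-- Admissible sequences of rotations about residues attached to `W`. -/
def Valid (len : P' → ℕ) (Pz R : Fin 3 → Subgroup P') (W : Set P')
    (l : List ((Fin 3 × P') × P')) : Prop :=
  (∀ a ∈ l, Att len Pz W a.1 ∧ MemRY R a.1 a.2 ∧ a.2 ≠ 1) ∧
    l.IsChain (fun a b => ¬ SameR Pz a.1 b.1)

/-- The product of the rotations of a sequence. -/
def rprod (l : List ((Fin 3 × P') × P')) : P' := (l.map Prod.snd).prod

/-- The next group of the windmill. -/
def nextN (len : P' → ℕ) (Pz R : Fin 3 → Subgroup P') (W : Set P') (N : Subgroup P') :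
    Subgroup P' :=
  Subgroup.closure ((N : Set P') ∪ {r | ∃ Y, Att len Pz W Y ∧ MemRY R Y r})

/-- The next set of the windmill. -/
def nextW (len : P' → ℕ) (Pz R : Fin 3 → Subgroup P') (W : Set P') (N : Subgroup P') :
    Set P' :=
  {x | ∃ σ ∈ nextN len Pz R W N, σ⁻¹ * x ∈ W ∨ ∃ Y, Att len Pz W Y ∧ InR Pz Y (σ⁻¹ * x)}

/-- `w` contains a nearly complete rotation. -/
def NC (len : P' → ℕ) (Pz R : Fin 3 → Subgroup P') (ρ : ℕ) (w : P') : Prop :=
  ∃ (w1 u w2 v : P') (z : Fin 3), w = w1 * u * w2 ∧ len w = len w1 + len u + len w2 ∧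
    u ∈ Pz z ∧ v ∈ Pz z ∧ ρ ≤ len u + 3 ∧ len v ≤ 3 ∧ u * v⁻¹ ∈ R z

end Windmill

end TA
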