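import Pool.Agent.H14.TA.Stmts
import Pool.Agent.H14.TA.CubeStmts

/-!
# Assembly: the wall cocycle and the proper action
-/

namespace TA

open Classical in
/-- From side functions and properness in terms of walls to a proper action. -/
theorem final_aux (κ : ℕ) (σ : Fam → G κ → G κ → ZMod 2) (hσ : GSides κ σ)
    (hfin : ∀ R : ℕ, {g : G κ | ∀ T : Finset (Fam × G κ), Diff (fun F => QF κ F) T →
      (∀ p ∈ T, σ p.1 p.2 g = 1) → T.card ≤ R}.Finite) (hact : S_ACT) :
    ActsProperly (G κ) := by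
  have z2 : ∀ a b : ZMod 2, (a + b = 1 ↔ (a = 1 ∧ ¬ b = 1) ∨ (b = 1 ∧ ¬ a = 1)) := by decide
  -- sides of a coset
  let σ' : (Σ F : Fam, G κ ⧸ QF κ F) → G κ → ZMod 2 := fun w g => σ w.1 w.2.out g
  have hσ' : ∀ (F : Fam) (t g : G κ), σ' ⟨F, (t : G κ ⧸ QF κ F)⟩ g = σ F t g := by
    intro F t g
    obtain ⟨b, hb⟩ := QuotientGroup.mk_out_eq_mul (QF κ F) t
    change σ F ((t : G κ ⧸ QF κ F).out) g = σ F t g
    rw [hb]
    exact (hσ F).coset (G_closure κ) t g b b.2
  have hmul : ∀ (w : Σ F : Fam, G κ ⧸ QF κ F) (g h : G κ),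
      σ' w (g * h) = σ' w g + σ' (g⁻¹ • w) h := by
    rintro ⟨F, q⟩ g h
    obtain ⟨t, rfl⟩ := QuotientGroup.mk_surjective q
    have h1 : g⁻¹ • (⟨F, (t : G κ ⧸ QF κ F)⟩ : Σ F : Fam, G κ ⧸ QF κ F) =
        ⟨F, ((g⁻¹ * t : G κ) : G κ ⧸ QF κ F)⟩ := rfl
    rw [h1, hσ', hσ', hσ', (hσ F).mul]
  -- finiteness
  have hone : ∀ w, σ' w 1 = 0 := by
    rintro ⟨F, q⟩
    obtain ⟨t, rfl⟩ := QuotientGroup.mk_surjective q
    rw [hσ', (hσ F).one]
  have hsupp : ∀ g : G κ, {w | σ' w g = 1}.Finite := by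
    intro g
    have hg : g ∈ Subgroup.closure (Set.range (gen κ)) := by rw [G_closure]; trivial
    induction hg using Subgroup.closure_induction with
    | mem g hg =>
      obtain ⟨y, rfl⟩ := hg
      apply (Set.finite_range (fun F : Fam => (⟨F, ((1 : G κ) : G κ ⧸ QF κ F)⟩ :
        Σ F : Fam, G κ ⧸ QF κ F))).subset
      rintro ⟨F, q⟩ hw
      obtain ⟨t, rfl⟩ := QuotientGroup.mk_surjective q
      rw [Set.mem_setOf_eq, hσ'] at hw
      by_cases hy : y = F.1
      · subst hy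
        rw [(hσ F).self] at hw
        split_ifs at hw with ht
        · refine ⟨F, ?_⟩
          have : ((1 : G κ) : G κ ⧸ QF κ F) = (t : G κ ⧸ QF κ F) := by
            rw [QuotientGroup.eq]; simpa using ht
          simp [this]
        · exact absurd hw (by decide)
      · rw [(hσ F).other _ _ hy] at hw
        exact absurd hw (by decide)
    | one =>
      convert Set.finite_empty
      ext w
      simp [hone]
    | mul g h _ _ hg hh =>
      apply (hg.union (hh.image (fun w => g • w))).subset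
      intro w hw
      rw [Set.mem_setOf_eq, hmul, z2] at hw
      rcases hw with hw | hw
      · exact Or.inl hw.1
      · exact Or.inr ⟨g⁻¹ • w, hw.1, by simp⟩
    | inv g _ hg =>
      apply (hg.image (fun w => g⁻¹ • w)).subset
      intro w hw
      rw [Set.mem_setOf_eq] at hw
      refine ⟨g • w, ?_, by simp⟩
      rw [Set.mem_setOf_eq]
      have h1 := hmul (g • w) g g⁻¹
      rw [mul_inv_cancel, hone, inv_smul_smul, hw] at h1
      have : ∀ a : ZMod 2, 0 = a + 1 → a = 1 := by decide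
      exact this _ h1
  let S : G κ → Finset (Σ F : Fam, G κ ⧸ QF κ F) := fun g => (hsupp g).toFinset
  have hS : ∀ g w, w ∈ S g ↔ σ' w g = 1 := by
    intro g w
    simp [S]
  refine hact (G κ) (Σ F : Fam, G κ ⧸ QF κ F) S ?_ ?_
  · intro g h
    ext w
    rw [Finset.mem_symmDiff, hS, hS, hmul, z2]
    have h1 : w ∈ (S h).image (fun w => g • w) ↔ σ' (g⁻¹ • w) h = 1 := by
      rw [Finset.mem_image]
      constructor
      · rintro ⟨v, hv, rfl⟩
        rw [hS] at hv
        simpa using hv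
      · intro hw
        exact ⟨g⁻¹ • w, (hS _ _).2 hw, by simp⟩
    rw [h1]
  · intro R
    apply (hfin R).subset
    intro g hg T hT hTσ
    refine le_trans ?_ hg
    have hinj : Set.InjOn (fun p : Fam × G κ => (⟨p.1, (p.2 : G κ ⧸ QF κ p.1)⟩ :
        Σ F : Fam, G κ ⧸ QF κ F)) T := by
      rintro ⟨F, t⟩ hp ⟨F', t'⟩ hq hpq
      have h1 : F = F' := congrArg Sigma.fst hpq
      subst h1
      have h2 : (t : G κ ⧸ QF κ F) = (t' : G κ ⧸ QF κ F) := by simpa using hpq
      rw [QuotientGroup.eq] at h2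
      exact hT _ hp _ hq rfl h2
    rw [← Finset.card_image_of_injOn hinj]
    apply Finset.card_le_card
    intro w hw
    obtain ⟨⟨F, t⟩, hp, rfl⟩ := Finset.mem_image.1 hw
    rw [hS, hσ']
    exact hTσ _ hp

theorem final_of (h1 : S_SIDEG) (h2 : S_FIN) (h3 : S_ACT) :
    ∀ κ : ℕ, 20 ≤ κ → ActsProperly (G κ) := by
  intro κ hκ
  choose σ hσ using h1 κ hκ
  exact final_aux κ σ hσ (h2 κ hκ σ hσ) h3

/-- The disproof of the conjecture. -/
theorem disproof_of (h1 : S_SIDEG) (h2 : S_FIN) (h3 : S_ACT) :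
    ¬ ∀ m n p : ℕ, 2 ≤ m → 2 ≤ n → 2 ≤ p → (1 / m + 1 / n + 1 / p : ℚ) < 1 →
      ¬ ActsProperly (Artin m n p) := by
  intro h
  refine h (4 * 20) (4 * 20) (4 * 20) (by norm_num) (by norm_num) (by norm_num) (by norm_num) ?_
  exact final_of h1 h2 h3 20 le_rfl

end TA
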