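import Pool.Agent.H14.TA.Basic

/-!
# Statements of the modules (see the plan ART_PLAN.md for the proofs)
-/

namespace TA

/-! ## A. Windmills -/

/-- Module `LOC`. -/
def S_LOC : Prop := ∀ (P' : Type) [Group P'] (len : P' → ℕ) (Pz : Fin 3 → Subgroup P'),
  SylGeom len Pz → ∀ W : Set P', Conv len W → ∀ Y Y2, ¬ SameR Pz Y Y2 → Meets Pz W Y →
  Meets Pz W Y2 → ∀ x g g2, IsGate len Pz Y x g → IsGate len Pz Y2 x g2 →
  (∀ h ∈ W, InR Pz Y h → 2 ≤ len (g⁻¹ * h)) →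
  ∃ i ∈ W, InR Pz Y2 i ∧ len (g2⁻¹ * i) ≤ 1

/-- Module `BASE`. First part: gates of points of `W`; second part: gates of points of a
residue `Y0` meeting `W`. -/
def S_BASE : Prop := ∀ (P' : Type) [Group P'] (len : P' → ℕ) (Pz : Fin 3 → Subgroup P'),
  SylGeom len Pz → ∀ W : Set P', Conv len W → ∀ Y2, Meets Pz W Y2 → ∀ x g2,
  IsGate len Pz Y2 x g2 →
  (x ∈ W → g2 ∈ W) ∧
  (∀ Y0, ¬ SameR Pz Y0 Y2 → Meets Pz W Y0 → InR Pz Y0 x →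
    ∃ i ∈ W, InR Pz Y2 i ∧ len (g2⁻¹ * i) ≤ 1)

/-- Module `GK`: gates along admissible sequences. -/
def S_GK : Prop := ∀ (P' : Type) [Group P'] (len : P' → ℕ) (Pz R : Fin 3 → Subgroup P') (ρ : ℕ),
  SylGeom len Pz → Rot len Pz R ρ → ∀ W : Set P', Conv len W →
  ∀ (l : List ((Fin 3 × P') × P')) (Y : Fin 3 × P') (r : P'), Valid len Pz R W (l ++ [(Y, r)]) →
  ∀ x, (x ∈ W ∨ ∃ Y0, InR Pz Y0 x ∧ Meets Pz W Y0 ∧
      ∀ a ∈ (l ++ [(Y, r)]).head?, ¬ SameR Pz Y0 a.1) →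
  ∀ g, IsGate len Pz Y ((rprod l)⁻¹ * x) g → ∃ i ∈ W, InR Pz Y i ∧ len (g⁻¹ * i) ≤ 1

/-- Module `REPN`. -/
def S_REPN : Prop := ∀ (P' : Type) [Group P'] (len : P' → ℕ) (Pz R : Fin 3 → Subgroup P') (ρ : ℕ),
  SylGeom len Pz → Rot len Pz R ρ → ∀ (W : Set P') (N : Subgroup P'), Mill len Pz R W N →
  ∀ w ∈ nextN len Pz R W N, ∃ l, Valid len Pz R W l ∧ ∃ n ∈ N, w = rprod l * n

/-- Module `NCK`. -/
def S_NCK : Prop := ∀ (P' : Type) [Group P'] (len : P' → ℕ) (Pz R : Fin 3 → Subgroup P') (ρ : ℕ),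
  SylGeom len Pz → Rot len Pz R ρ → ∀ (W : Set P') (N : Subgroup P'), Mill len Pz R W N →
  ∀ w ∈ nextN len Pz R W N, w ∉ N → NC len Pz R ρ w

/-- Module `DIAM`. -/
def S_DIAM : Prop := ∀ (P' : Type) [Group P'] (len : P' → ℕ) (Pz R : Fin 3 → Subgroup P') (ρ : ℕ),
  SylGeom len Pz → Rot len Pz R ρ → ∀ (W : Set P') (N : Subgroup P'), Mill len Pz R W N →
  ∀ Y, (∀ σ ∈ nextN len Pz R W N, ∀ x ∈ W, ¬ InR Pz Y (σ * x)) →
  ∀ p ∈ nextW len Pz R W N, ∀ q ∈ nextW len Pz R W N, InR Pz Y p → InR Pz Y q →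
  len (p⁻¹ * q) ≤ 2

/-- Module `CONVW`. -/
def S_CONVW : Prop := ∀ (P' : Type) [Group P'] (len : P' → ℕ) (Pz R : Fin 3 → Subgroup P')
  (ρ : ℕ), SylGeom len Pz → Rot len Pz R ρ → ∀ (W : Set P') (N : Subgroup P'),
  Mill len Pz R W N → Conv len (nextW len Pz R W N)

/-- Module `STEP`. -/
def S_STEP : Prop := ∀ (P' : Type) [Group P'] (len : P' → ℕ) (Pz R : Fin 3 → Subgroup P') (ρ : ℕ),
  SylGeom len Pz → Rot len Pz R ρ → ∀ (W : Set P') (N : Subgroup P'), Mill len Pz R W N →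
  Mill len Pz R (nextW len Pz R W N) (nextN len Pz R W N) ∧ W ⊆ nextW len Pz R W N ∧
  N ≤ nextN len Pz R W N ∧
  ∀ Y, Meets Pz W Y → (∀ x, InR Pz Y x → x ∈ nextW len Pz R W N) ∧
    ∀ r, MemRY R Y r → r ∈ nextN len Pz R W N

/-- Module `WM`: the windmill theorem (Greendlinger lemma). -/
def S_WM : Prop := ∀ (P' : Type) [Group P'] (len : P' → ℕ) (Pz R : Fin 3 → Subgroup P') (ρ : ℕ),
  SylGeom len Pz → Rot len Pz R ρ →
  ∀ w ∈ Subgroup.closure {x | ∃ Y : Fin 3 × P', MemRY R Y x}, w ≠ 1 → NC len Pz R ρ w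

/-- Module `SYL1`: the metric axioms in the free product `P`. -/
def S_SYL1 : Prop := (∀ g : P, len g = 0 ↔ g = 1) ∧ (∀ g : P, len g⁻¹ = len g) ∧
  (∀ g h : P, len (g * h) ≤ len g + len h) ∧
  (∀ x m y p : P, Btw len x m y → Btw len x m p ∨ Btw len p m y)

/-- Module `SYL2`: the free product `P` satisfies all axioms. -/
def S_SYL2 : Prop := SylGeom len Pz

/-- Module `GR`: Greendlinger's lemma for `G κ`. -/
def S_GR : Prop := ∀ κ : ℕ, 10 ≤ κ → ∀ l : List (Fin 3 × ℤ), Red l → l ≠ [] →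
  ev (gen κ) l = 1 → ∃ u, u <:+: l ∧ (∃ z, ∀ s ∈ u, s.1 ≠ z) ∧ κ ≤ u.length + 5 ∧
  ∃ v : List (Fin 3 × ℤ), v.length ≤ 3 ∧ ev (gen κ) v = ev (gen κ) u

/-! ## B. The dihedral group -/

/-- Module `DL` (1). -/
def S_DEL : Prop := ∀ κ : ℕ, 2 ≤ κ →
  (∀ c : ℤ, del κ ^ (2 * c) = ((dgen κ false * dgen κ true) ^ (2 * κ)) ^ c) ∧
  (∀ m n : ℤ, del κ ^ m = dgen κ false ^ n → m = 0 ∧ n = 0) ∧
  (∀ n : ℤ, dgen κ false ^ n ∈ KK κ → n = 0) ∧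
  (∀ m m' p t : ℤ, t ≠ 0 → del κ ^ m * dgen κ false ^ p = dgen κ false ^ t * del κ ^ m' →
    m = m' ∧ Even m)

/-- Module `D1`: powers of `δ` have many syllables. -/
def S_D1 : Prop := ∀ κ : ℕ, ∀ m p q : ℤ, m ≠ 0 → ∀ l : List (Bool × ℤ),
  ev (dgen κ) l = dgen κ false ^ p * del κ ^ m * dgen κ false ^ q → κ ≤ l.length + 2

open Classical in
/-- Parity property of a subgroup `B` of `D κ` (with respect to the letter `a`). -/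
def ParD (κ : ℕ) (B : Subgroup (D κ)) : Prop := ∀ t : D κ,
  Even (((Finset.range (2 * κ)).filter
      (fun j => t⁻¹ * (dgen κ false * dgen κ true) ^ j ∈ B)).card +
    ((Finset.range (2 * κ)).filter
      (fun j => t⁻¹ * (dgen κ true * (dgen κ false * dgen κ true) ^ j) ∈ B)).card)

/-- Module `PARV`. -/
def S_PARV : Prop := ∀ κ : ℕ, 1 ≤ κ → ParD κ (Subgroup.zpowers (del κ))

/-- Module `PARK`. -/
def S_PARK : Prop := ∀ κ : ℕ, 1 ≤ κ → ParD κ (KK κ)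

/-- Module `SIDED`: side functions exist on `D κ`. -/
def S_SIDED : Prop := ∀ κ : ℕ, 1 ≤ κ → ∀ f : LFam,
  ∃ s, IsSide (dgen κ) f.letter (f.B κ) s

/-- Module `D2`: short reduced words are nontrivial in `D κ`. -/
def S_D2 : Prop := ∀ κ : ℕ, 1 ≤ κ → ∀ l : List (Bool × ℤ), Red l → l ≠ [] →
  ev (dgen κ) l = 1 → κ ≤ l.length + 2

/-- The central element `z = (ab)^{2κ}`. -/
def zz (κ : ℕ) : D κ := (dgen κ false * dgen κ true) ^ (2 * κ)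

/-- A letter word: all exponents are `±1`. -/
def Lett (l : List (Bool × ℤ)) : Prop := ∀ s ∈ l, s.2 = 1 ∨ s.2 = -1

/-- `w` is a shortest letter word modulo the centre. -/
def ZShort (κ : ℕ) (w : List (Bool × ℤ)) : Prop :=
  Lett w ∧ ∀ w' : List (Bool × ℤ), Lett w' → (∃ c : ℤ, ev (dgen κ) w' = ev (dgen κ) w * zz κ ^ c) →
    w.length ≤ w'.length

/-- Module `F1`: a `V`-wall crosses a shortest word at most once. -/
def S_F1 : Prop := ∀ κ : ℕ, 2 ≤ κ → ∀ f : LFam, f ≠ LFam.Ha → ∀ w, ZShort κ w →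
  ∀ t l1 s l2 l1' s' l2', w = l1 ++ s :: l2 → w = l1' ++ s' :: l2' →
  Cr (dgen κ) f.letter (f.B κ) t (ev (dgen κ) l1) s →
  Cr (dgen κ) f.letter (f.B κ) t (ev (dgen κ) l1') s' → l1.length = l1'.length

/-- Module `F2`: outside the first run of letters at most one crossed `V`-wall of each family has
a line through `1`. -/
def S_F2 : Prop := ∀ κ : ℕ, 2 ≤ κ → ∀ f : LFam, f ≠ LFam.Ha → ∀ w0 w1, ZShort κ (w0 ++ w1) →
  w0 ≠ [] → (∀ s ∈ w0, ∀ s' ∈ w0, s.1 = s'.1) → (∀ s ∈ w0, ∀ s' ∈ w1.head?, s.1 ≠ s'.1) →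
  ∀ t l1 s l2 t' l1' s' l2', w1 = l1 ++ s :: l2 → w1 = l1' ++ s' :: l2' →
  Cr (dgen κ) f.letter (f.B κ) t (ev (dgen κ) (w0 ++ l1)) s →
  Cr (dgen κ) f.letter (f.B κ) t' (ev (dgen κ) (w0 ++ l1')) s' →
  (∃ n : ℤ, t⁻¹ * dgen κ f.letter ^ n ∈ f.B κ) → (∃ n : ℤ, t'⁻¹ * dgen κ f.letter ^ n ∈ f.B κ) →
  l1.length = l1'.length

/-- Side functions for all local families. -/
def LSides (κ : ℕ) (σ : LFam → D κ → D κ → ZMod 2) : Prop :=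
  ∀ f, IsSide (dgen κ) (LFam.letter f) (f.B κ) (σ f)

/-- The local wall `t B_f` strictly separates `1` and `α`. -/
def LStrict (κ : ℕ) (σ : LFam → D κ → D κ → ZMod 2) (f : LFam) (t α : D κ) : Prop :=
  σ f t α = 1 ∧ (∀ n : ℤ, t⁻¹ * dgen κ f.letter ^ n ∉ f.B κ) ∧
    ∀ n : ℤ, t⁻¹ * α * dgen κ f.letter ^ n ∉ f.B κ

/-- Pairwise different walls. -/
def Diff {F Γ : Type*} [Group Γ] (B : F → Subgroup Γ) (T : Finset (F × Γ)) : Prop :=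
  ∀ p ∈ T, ∀ q ∈ T, p.1 = q.1 → p.2⁻¹ * q.2 ∈ B p.1 → p = q

/-- Module `D3V`: counting strict `V`-walls. -/
def S_D3V : Prop := ∀ κ : ℕ, 2 ≤ κ → ∀ σ, LSides κ σ → ∀ w0 w1 w2, ZShort κ (w0 ++ w1 ++ w2) →
  w0 ≠ [] → w2 ≠ [] → (∀ s ∈ w0, ∀ s' ∈ w0, s.1 = s'.1) →
  (∀ s ∈ w0, ∀ s' ∈ (w1 ++ w2).head?, s.1 ≠ s'.1) →
  (∀ s ∈ w2, ∀ s' ∈ w2, s.1 = s'.1) → (∀ s ∈ w2, ∀ s' ∈ (w0 ++ w1).getLast?, s.1 ≠ s'.1) →
  ∀ c : ℤ, ∃ T : Finset (LFam × D κ), Diff (fun f => LFam.B κ f) T ∧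
    (∀ p ∈ T, LStrict κ σ p.1 p.2 (ev (dgen κ) (w0 ++ w1 ++ w2) * zz κ ^ c)) ∧
    w1.length ≤ T.card + 4

/-- Module `D3H`: counting strict `H`-walls. -/
def S_D3H : Prop := ∀ κ : ℕ, 2 ≤ κ → ∀ σ, LSides κ σ → ∀ w0 w1 w2 : List (Bool × ℤ),
  Lett (w0 ++ w1 ++ w2) → (∀ s ∈ w0, ∀ s' ∈ w0, s.1 = s'.1) →
  (∀ s ∈ w2, ∀ s' ∈ w2, s.1 = s'.1) →
  ∀ c : ℤ, ∃ T : Finset (LFam × D κ), Diff (fun f => LFam.B κ f) T ∧
    (∀ p ∈ T, LStrict κ σ p.1 p.2 (ev (dgen κ) (w0 ++ w1 ++ w2) * zz κ ^ c)) ∧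
    (2 * κ - 2) * c.natAbs ≤ T.card + w1.length

/-- The bound of the local lemma. -/
def CC (κ R : ℕ) : ℕ := 4 * κ * (2 * R + 4) + R + 6

/-- Module `D3`: the local lemma. -/
def S_D3 : Prop := ∀ κ : ℕ, 5 ≤ κ → ∀ σ, LSides κ σ → ∀ α : D κ,
  ((∀ f t, ¬ LStrict κ σ f t α) → ∃ l : List (Bool × ℤ), ev (dgen κ) l = α ∧ l.length ≤ 6) ∧
  (∀ R : ℕ, (∀ T : Finset (LFam × D κ), Diff (fun f => LFam.B κ f) T →
      (∀ p ∈ T, LStrict κ σ p.1 p.2 α) → T.card ≤ R) →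
    ∃ l : List (Bool × ℤ), ev (dgen κ) l = α ∧ l.length ≤ CC κ R)

/-! ## C. The global group -/

/-- Module `RETL`: retraction of syllable lists. -/
def S_RETL : Prop := ∀ κ : ℕ, ∀ x y : Fin 3, x ≠ y →
  (∀ (l : List (Fin 3 × ℤ)) (α : D κ), ev (gen κ) l = iota κ x y α →
    ∃ l' : List (Bool × ℤ), ev (dgen κ) l' = α ∧ l'.length ≤ l.length) ∧
  (∀ (l : List (Fin 3 × ℤ)), (∀ s ∈ l, s.1 = x ∨ s.1 = y) →
    ∃ l' : List (Bool × ℤ), l'.length = l.length ∧ (Red l → Red l') ∧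
      ev (gen κ) l = iota κ x y (ev (dgen κ) l')) ∧
  (∀ α : D κ, ∃ l : List (Fin 3 × ℤ), Geo (gen κ) l ∧ (∀ s ∈ l, s.1 = x ∨ s.1 = y) ∧
    ev (gen κ) l = iota κ x y α) ∧
  (∀ (l : List (Fin 3 × ℤ)) (α : D κ), Geo (gen κ) l → ev (gen κ) l = iota κ x y α →
    ∀ s ∈ l, s.1 = x ∨ s.1 = y)

/-- Hypotheses on a pair of dihedral subgroups. -/
structure GoodB (κ : ℕ) (B : Bool → Subgroup (D κ)) : Prop where
  triv : ∀ i (n : ℤ), dgen κ false ^ n ∈ B i → n = 0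
  long : ∃ i, ∀ β ∈ B i, β ≠ 1 → ∀ (p q : ℤ) (l : List (Bool × ℤ)),
    ev (dgen κ) l = dgen κ false ^ p * β * dgen κ false ^ q → 2 ≤ l.length

/-- Alternating products of nontrivial elements of the two subgroups; `Alt x B i q` says that
`q = 1` or the first factor of `q` belongs to the `i`-th subgroup. -/
inductive Alt (κ : ℕ) (x : Fin 3) (B : Bool → Subgroup (D κ)) : Bool → G κ → Prop
  | one (i : Bool) : Alt κ x B i 1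
  | mul (i : Bool) (β : D κ) (q : G κ) : β ∈ B i → β ≠ 1 → Alt κ x B (!i) q →
      Alt κ x B i (iota κ x (yy x i) β * q)

/-- A block: a geodesic word in `x, y` that starts and ends with `y`. -/
def Blk (κ : ℕ) (x y : Fin 3) (l : List (Fin 3 × ℤ)) : Prop :=
  Geo (gen κ) l ∧ (∀ s ∈ l, s.1 = x ∨ s.1 = y) ∧ (∃ s ∈ l.head?, s.1 = y) ∧
    ∃ s ∈ l.getLast?, s.1 = y

/-- Tails: what may follow a block of type `i`. -/
inductive Tail (κ : ℕ) (x : Fin 3) (lg : Bool → Prop) : Bool → List (Fin 3 × ℤ) → Prop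
  | nil (i : Bool) : Tail κ x lg i []
  | pow (i : Bool) (e : ℤ) : e ≠ 0 → Tail κ x lg i [(x, e)]
  | blk (i : Bool) (l Y : List (Fin 3 × ℤ)) : Blk κ x (yy x (!i)) l → (lg (!i) → 2 ≤ l.length) →
      Tail κ x lg (!i) Y → Tail κ x lg i (l ++ Y)
  | pblk (i : Bool) (e : ℤ) (l Y : List (Fin 3 × ℤ)) : e ≠ 0 → Blk κ x (yy x (!i)) l →
      (lg (!i) → 2 ≤ l.length) → Tail κ x lg (!i) Y → Tail κ x lg i ((x, e) :: (l ++ Y))

/-- Module `TL1`: alternating products are values of tails. -/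
def S_TL1 : Prop := ∀ κ : ℕ, ∀ x B, GoodB κ B → ∀ i q, Alt κ x B (!i) q → ∀ s t : ℤ,
  ∃ Y, Tail κ x (fun j => ∀ β ∈ B j, β ≠ 1 → ∀ (p q : ℤ) (l : List (Bool × ℤ)),
    ev (dgen κ) l = dgen κ false ^ p * β * dgen κ false ^ q → 2 ≤ l.length) i Y ∧
    ev (gen κ) Y = gen κ x ^ s * q * gen κ x ^ t

/-- Module `TL2`: two-letter subwords of the word in the proof of `CL` are nearly geodesic. -/
def S_TL2 : Prop := ∀ κ : ℕ, ∀ (x : Fin 3) (lg : Bool → Prop), (lg false ∨ lg true) → ∀ i Y,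
  Tail κ x lg i Y → ∀ γ, Blk κ x (yy x i) γ → ∀ w', Geo (gen κ) w' →
  (∀ s ∈ w'.getLast?, s.1 = yy x (!i)) → ∀ m : List (Fin 3 × ℤ),
  (m = [] ∨ ∃ e : ℤ, e ≠ 0 ∧ m = [(x, e)]) →
  Red (w' ++ m ++ γ ++ Y) ∧
  ∀ u, u <:+: (w' ++ m ++ γ ++ Y) → (∃ z, ∀ s ∈ u, s.1 ≠ z) →
    ∃ u1 u' u2, u = u1 ++ u' ++ u2 ∧ u1.length + u2.length ≤ 4 ∧ Geo (gen κ) u'

/-- Module `CL`: the core lemma. -/
def S_CL : Prop := ∀ κ : ℕ, 20 ≤ κ → ∀ x B, GoodB κ B → ∀ i q, Alt κ x B (!i) q →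
  ∀ α : D κ, (∀ n : ℤ, α ≠ dgen κ false ^ n) → ∀ (t : ℤ) (w' : List (Fin 3 × ℤ)),
  Geo (gen κ) w' → (∀ s ∈ w'.head?, s.1 = yy x (!i)) →
  ev (gen κ) w' ≠ iota κ x (yy x i) α * q * gen κ x ^ t

/-- Module `BL`: geodesics between lines of a wall. -/
def S_BL : Prop := ∀ κ : ℕ, 20 ≤ κ → ∀ x B, GoodB κ B → ∀ i, ∀ q ∈ QQ κ x B,
  ∀ (t0 t1 : ℤ) (u w'' : List (Fin 3 × ℤ)), Geo (gen κ) (u ++ w'') →
  (∃ s ∈ u.head?, s.1 = yy x i) → (∀ s ∈ u, s.1 ≠ yy x (!i)) → (∀ s ∈ w''.head?, s.1 = yy x (!i)) →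
  ev (gen κ) (u ++ w'') = gen κ x ^ (-t0) * q * gen κ x ^ t1 →
  ∃ β ∈ B i, β ≠ 1 ∧ ∃ t : ℤ,
    ev (gen κ) u = gen κ x ^ (-t0) * iota κ x (yy x i) β * gen κ x ^ t

/-- Module `QA`: intersections. -/
def S_QA : Prop := ∀ κ : ℕ, 20 ≤ κ → ∀ x B, GoodB κ B →
  (∀ n : ℤ, gen κ x ^ n ∈ QQ κ x B → n = 0) ∧
  (∀ i (α : D κ), iota κ x (yy x i) α ∈ QQ κ x B ↔ α ∈ B i)

/-- Module `ALTQ`: elements of `QQ` are alternating products. -/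
def S_ALTQ : Prop := ∀ κ : ℕ, ∀ x B, ∀ q ∈ QQ κ x B, ∃ i, Alt κ x B i q

/-- Module `GOODF`: the wall families satisfy the hypotheses. -/
def S_GOODF : Prop := ∀ κ : ℕ, 20 ≤ κ → ∀ F : Fam, GoodB κ (BF κ F)

/-- Module `SIDEG`: side functions exist on `G κ`. -/
def S_SIDEG : Prop := ∀ κ : ℕ, 20 ≤ κ → ∀ F : Fam, ∃ s, IsSide (gen κ) F.1 (QF κ F) s

/-- Side functions for all global families. -/
def GSides (κ : ℕ) (σ : Fam → G κ → G κ → ZMod 2) : Prop :=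
  ∀ F, IsSide (gen κ) F.1 (QF κ F) (σ F)

/-- `v` is a maximal two-letter subword of `w`, missing the letter `z`. -/
structure Part (w w1 v w2 : List (Fin 3 × ℤ)) (z : Fin 3) : Prop where
  eq : w = w1 ++ v ++ w2
  miss : ∀ s ∈ v, s.1 ≠ z
  two : 2 ≤ v.length
  left : ∀ s ∈ w1.getLast?, s.1 = z
  right : ∀ s ∈ w2.head?, s.1 = z

/-- The wall `t Q_F` strictly separates the ends of the part `v`. -/
def GStrict (κ : ℕ) (σ : Fam → G κ → G κ → ZMod 2) (F : Fam) (t : G κ)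
    (w1 v : List (Fin 3 × ℤ)) : Prop :=
  σ F ((ev (gen κ) w1)⁻¹ * t) (ev (gen κ) v) = 1 ∧
  (∀ n : ℤ, t⁻¹ * ev (gen κ) w1 * gen κ F.1 ^ n ∉ QF κ F) ∧
  ∀ n : ℤ, t⁻¹ * ev (gen κ) (w1 ++ v) * gen κ F.1 ^ n ∉ QF κ F

/-- Module `PARTS`: combinatorics of maximal two-letter subwords. -/
def S_PARTS : Prop :=
  (∀ (w l u r : List (Fin 3 × ℤ)) (z : Fin 3), w = l ++ u ++ r → 2 ≤ u.length →
    (∀ s ∈ u, s.1 ≠ z) → ∃ w1 v w2 l' r', Part w w1 v w2 z ∧ l = w1 ++ l' ∧ r = r' ++ w2 ∧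
      v = l' ++ u ++ r') ∧
  (∀ (w : List (Fin 3 × ℤ)), Red w → 2 ≤ w.length → ∀ j < w.length,
    ∃ w1 v w2 z, Part w w1 v w2 z ∧ w1.length ≤ j ∧ j < w1.length + v.length) ∧
  (∀ (w w1 v w2 w1' v' w2' : List (Fin 3 × ℤ)) (z z' : Fin 3), Red w → Part w w1 v w2 z →
    Part w w1' v' w2' z' → ∀ j, w1.length < j → j + 1 < w1.length + v.length →
    w1'.length < j → j + 1 < w1'.length + v'.length → w1 = w1' ∧ v = v')

/-- Module `M1A`: a strict wall crosses `w` only strictly inside the part, hence separates. -/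
def S_M1A : Prop := ∀ κ : ℕ, 20 ≤ κ → ∀ σ, GSides κ σ → ∀ w w1 v w2 z, Geo (gen κ) w →
  Part w w1 v w2 z → ∀ F t, GStrict κ σ F t w1 v →
  (∀ l1 s l2, w = l1 ++ s :: l2 → Cr (gen κ) F.1 (QF κ F) t (ev (gen κ) l1) s →
    w1.length < l1.length ∧ l1.length + 1 < w1.length + v.length) ∧
  (∃ l1 s l2, w = l1 ++ s :: l2 ∧ Cr (gen κ) F.1 (QF κ F) t (ev (gen κ) l1) s) ∧
  σ F t (ev (gen κ) w) = 1

/-- Module `M2`: a `V`-wall crossing a syllable that lies only in short parts crosses only there. -/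
def S_M2 : Prop := ∀ κ : ℕ, 20 ≤ κ → ∀ w l1 s l2, Geo (gen κ) w → w = l1 ++ s :: l2 →
  (∀ w1 v w2 z, Part w w1 v w2 z → w1.length ≤ l1.length → l1.length < w1.length + v.length →
    v.length ≤ 6) →
  ∀ t, Cr (gen κ) s.1 (QF κ (s.1, false)) t (ev (gen κ) l1) s →
  ∀ m1 s' m2, w = m1 ++ s' :: m2 → Cr (gen κ) s.1 (QF κ (s.1, false)) t (ev (gen κ) m1) s' →
  m1.length = l1.length

/-- Module `ALG`: the algebraic lemma on `V`-walls. -/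
def S_ALG : Prop := ∀ κ : ℕ, 20 ≤ κ → ∀ x : Fin 3, ∀ q ∈ QF κ (x, false),
  ∀ q' ∈ QF κ (x, false), ∀ t t' : ℤ, t ≠ 0 → gen κ x ^ t * q' = q * gen κ x ^ t' →
  Commute q (gen κ x)

/-- Module `M3`: two different syllables are both crossed by at most one `V`-wall. -/
def S_M3 : Prop := ∀ κ : ℕ, 20 ≤ κ → ∀ w l1 s l2 m1 s' m2, Geo (gen κ) w →
  w = l1 ++ s :: l2 → w = m1 ++ s' :: m2 → l1.length < m1.length → s'.1 = s.1 →
  ∀ t t', Cr (gen κ) s.1 (QF κ (s.1, false)) t (ev (gen κ) l1) s →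
  Cr (gen κ) s.1 (QF κ (s.1, false)) t (ev (gen κ) m1) s' →
  Cr (gen κ) s.1 (QF κ (s.1, false)) t' (ev (gen κ) l1) s →
  Cr (gen κ) s.1 (QF κ (s.1, false)) t' (ev (gen κ) m1) s' → t⁻¹ * t' ∈ QF κ (s.1, false)

/-- The global family corresponding to a local family in the dihedral group of `x, x+1`. -/
def gf (x : Fin 3) : LFam → Fam
  | .Va => (x, false)
  | .Vb => (x + 1, false)
  | .Ha => (x, true)

/-- Module `LG`: comparison of local and global walls. -/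
def S_LG : Prop := ∀ κ : ℕ, 20 ≤ κ → ∀ x : Fin 3, ∀ f : LFam,
  gen κ (gf x f).1 = iota κ x (x + 1) (dgen κ f.letter) ∧
  (∀ t : D κ, iota κ x (x + 1) t ∈ QF κ (gf x f) ↔ t ∈ f.B κ) ∧
  ∀ s, IsSide (gen κ) (gf x f).1 (QF κ (gf x f)) s →
    IsSide (dgen κ) f.letter (f.B κ) (fun t g => s (iota κ x (x + 1) t) (iota κ x (x + 1) g))

/-- Module `M1C`: long parts have strict walls, and few walls bound the length of a part. -/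
def S_M1C : Prop := ∀ κ : ℕ, 20 ≤ κ → ∀ σ, GSides κ σ → ∀ w w1 v w2 z, Geo (gen κ) w →
  Part w w1 v w2 z →
  (7 ≤ v.length → ∃ F t, GStrict κ σ F t w1 v) ∧
  (∀ R : ℕ, (∀ T : Finset (Fam × G κ), Diff (fun F => QF κ F) T →
      (∀ p ∈ T, σ p.1 p.2 (ev (gen κ) w) = 1) → T.card ≤ R) → v.length ≤ CC κ R)

/-- Module `CNT`: few walls bound the number of syllables and the exponents. -/
def S_CNT : Prop := ∀ κ : ℕ, 20 ≤ κ → ∀ σ, GSides κ σ → ∀ w, Geo (gen κ) w → ∀ R : ℕ,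
  (∀ T : Finset (Fam × G κ), Diff (fun F => QF κ F) T →
      (∀ p ∈ T, σ p.1 p.2 (ev (gen κ) w) = 1) → T.card ≤ R) →
  w.length ≤ R * (CC κ R + 1) + 1 ∧ ∀ s ∈ w, s.2.natAbs ≤ R * (CC κ R + 1) + 1 + R

/-- Module `FIN`: properness in terms of walls. -/
def S_FIN : Prop := ∀ κ : ℕ, 20 ≤ κ → ∀ σ, GSides κ σ → ∀ R : ℕ,
  {g : G κ | ∀ T : Finset (Fam × G κ), Diff (fun F => QF κ F) T →
      (∀ p ∈ T, σ p.1 p.2 g = 1) → T.card ≤ R}.Finite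

end TA
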