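import Pool.Agent.H14.TA.Stmts

/-!
# Windmill theorem: iteration
-/

namespace TA

section
variable {P' : Type} [Group P'] {len : P' → ℕ} {Pz R : Fin 3 → Subgroup P'} {ρ : ℕ}

/-- The sequence of windmills. -/
def mseq (len : P' → ℕ) (Pz R : Fin 3 → Subgroup P') : ℕ → Set P' × Subgroup P'
  | 0 => ({1}, ⊥)
  | n + 1 => (nextW len Pz R (mseq len Pz R n).1 (mseq len Pz R n).2,
      nextN len Pz R (mseq len Pz R n).1 (mseq len Pz R n).2)

theorem len_one' (hG : SylGeom len Pz) : len 1 = 0 := (hG.eq_one 1).2 rfl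

theorem mill_zero (hG : SylGeom len Pz) : Mill len Pz R {1} ⊥ where
  one := rfl
  conv := by
    intro x hx y hy m hm
    rw [Set.mem_singleton_iff] at hx hy
    subst hx; subst hy
    rw [Btw] at hm
    simp only [inv_one, one_mul, mul_one, len_one' hG] at hm
    have : len m = 0 := by omega
    exact (hG.eq_one m).1 this
  inv := by
    intro n hn x hx
    rw [Subgroup.mem_bot] at hn
    rw [hn, one_mul]; exact hx
  dich := by
    intro Y hY
    right
    refine ⟨hY, ?_⟩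
    intro x hx y hy _ _
    rw [Set.mem_singleton_iff] at hx hy
    subst hx; subst hy
    simp [len_one' hG]

theorem mill_seq (h1 : S_STEP) (hG : SylGeom len Pz) (hR : Rot len Pz R ρ) (n : ℕ) :
    Mill len Pz R (mseq len Pz R n).1 (mseq len Pz R n).2 := by
  induction n with
  | zero => exact mill_zero hG
  | succ n ih => exact (h1 P' len Pz R ρ hG hR _ _ ih).1

theorem mseq_mono_step (h1 : S_STEP) (hG : SylGeom len Pz) (hR : Rot len Pz R ρ) (n : ℕ) :
    (mseq len Pz R n).1 ⊆ (mseq len Pz R (n + 1)).1 ∧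
    (mseq len Pz R n).2 ≤ (mseq len Pz R (n + 1)).2 :=
  let h := h1 P' len Pz R ρ hG hR _ _ (mill_seq h1 hG hR n)
  ⟨h.2.1, h.2.2.1⟩

theorem mseq_mono (h1 : S_STEP) (hG : SylGeom len Pz) (hR : Rot len Pz R ρ) {m n : ℕ}
    (h : m ≤ n) : (mseq len Pz R m).1 ⊆ (mseq len Pz R n).1 ∧
    (mseq len Pz R m).2 ≤ (mseq len Pz R n).2 := by
  induction n, h using Nat.le_induction with
  | base => exact ⟨le_rfl, le_rfl⟩
  | succ n _ ih =>
    have := mseq_mono_step h1 hG hR n
    exact ⟨ih.1.trans this.1, ih.2.trans this.2⟩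

theorem mseq_exhaust (h1 : S_STEP) (hG : SylGeom len Pz) (hR : Rot len Pz R ρ) (g : P') :
    ∃ n, g ∈ (mseq len Pz R n).1 := by
  have hg := hG.gen g
  induction hg using Subgroup.closure_induction_right with
  | one => exact ⟨0, rfl⟩
  | mul_right x y _ hy ih =>
    obtain ⟨n, hn⟩ := ih
    rw [Set.mem_iUnion] at hy
    obtain ⟨z, hz⟩ := hy
    refine ⟨n + 1, ?_⟩
    have := (h1 P' len Pz R ρ hG hR _ _ (mill_seq h1 hG hR n)).2.2.2 (z, x)
      ⟨x, hn, by simp [InR]⟩
    apply this.1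
    simpa [InR] using hz
  | mul_inv_cancel x y _ hy ih =>
    obtain ⟨n, hn⟩ := ih
    rw [Set.mem_iUnion] at hy
    obtain ⟨z, hz⟩ := hy
    refine ⟨n + 1, ?_⟩
    have := (h1 P' len Pz R ρ hG hR _ _ (mill_seq h1 hG hR n)).2.2.2 (z, x)
      ⟨x, hn, by simp [InR]⟩
    apply this.1
    simpa [InR] using hz

end

theorem wm_of (h1 : S_STEP) (h2 : S_NCK) : S_WM := by
  intro P' _ len Pz R ρ hG hR w hw hw1
  -- `w` lies in some `N_n`
  have hex : ∃ n, w ∈ (mseq len Pz R n).2 := by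
    clear hw1
    induction hw using Subgroup.closure_induction with
    | mem x hx =>
      obtain ⟨Y, hY⟩ := hx
      obtain ⟨n, hn⟩ := mseq_exhaust h1 hG hR Y.2
      refine ⟨n + 1, ?_⟩
      have := (h1 P' len Pz R ρ hG hR _ _ (mill_seq h1 hG hR n)).2.2.2 Y
        ⟨Y.2, hn, by simp [InR]⟩
      exact this.2 x hY
    | one => exact ⟨0, Subgroup.one_mem _⟩
    | mul x y _ _ hx hy =>
      obtain ⟨m, hm⟩ := hx
      obtain ⟨n, hn⟩ := hy
      refine ⟨max m n, Subgroup.mul_mem _ ?_ ?_⟩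
      · exact (mseq_mono h1 hG hR (le_max_left m n)).2 hm
      · exact (mseq_mono h1 hG hR (le_max_right m n)).2 hn
    | inv x _ hx =>
      obtain ⟨m, hm⟩ := hx
      exact ⟨m, Subgroup.inv_mem _ hm⟩
  classical
  have hspec := Nat.find_spec hex
  have hpos : Nat.find hex ≠ 0 := by
    intro h0
    rw [h0] at hspec
    exact hw1 (Subgroup.mem_bot.1 hspec)
  obtain ⟨n, hn⟩ := Nat.exists_eq_succ_of_ne_zero hpos
  rw [hn] at hspec
  have hmin : w ∉ (mseq len Pz R n).2 := Nat.find_min hex (by omega)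
  exact h2 P' len Pz R ρ hG hR _ _ (mill_seq h1 hG hR n) w hspec hmin

end TA
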